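import Mathlib

/-!
# Length functions on the symmetric group of a countable set are bounded

A length function `f` on a group satisfies `f (a b) ≤ f a + f b` and `f a⁻¹ = f a`.
We show that all length functions on `Perm ℕ` are bounded (a theorem of G. Bergman).
-/

set_option autoImplicit false

namespace Pool.Agent.K4H27.QP

open Equiv

/-- Length functions. -/
structure IsLen {G : Type*} [Group G] (f : G → ℕ) : Prop where
  mul : ∀ a b, f (a * b) ≤ f a + f b
  inv : ∀ a, f a⁻¹ = f a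

theorem IsLen.pow {G : Type*} [Group G] {f : G → ℕ} (hf : IsLen f) (a : G) (n : ℕ) :
    f (a ^ n) ≤ f 1 + n * f a := by
  induction n with
  | zero => simp
  | succ n ih =>
    rw [pow_succ]
    have := hf.mul (a ^ n) a
    have h2 : (n + 1) * f a = n * f a + f a := by ring
    omega

theorem IsLen.conj {G : Type*} [Group G] {f : G → ℕ} (hf : IsLen f) (a b : G) :
    f (a * b * a⁻¹) ≤ f b + 2 * f a := by
  have h1 := hf.mul (a * b) a⁻¹
  have h2 := hf.mul a b
  have h3 := hf.inv a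
  omega

/-- the space of the array -/
abbrev Om : Type := (ℤ × ℤ) × ℕ

/-- fibrewise permutations -/
abbrev T (e : ℤ × ℤ → Perm ℕ) : Perm Om := Equiv.prodCongrRight e

/-- permutations of the base -/
abbrev B (s : Perm (ℤ × ℤ)) : Perm Om := Equiv.prodCongr s (Equiv.refl ℕ)

theorem B_conj (s : Perm (ℤ × ℤ)) (e : ℤ × ℤ → Perm ℕ) :
    B s * T e * (B s)⁻¹ = T (fun p => e (s⁻¹ p)) := by
  rw [mul_inv_eq_iff_eq_mul]
  ext1 ⟨p, x⟩
  simp [Perm.mul_apply]

theorem T_mul_inv (e e' : ℤ × ℤ → Perm ℕ) :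
    T e * (T e')⁻¹ = T (fun p => e p * (e' p)⁻¹) := by
  rw [mul_inv_eq_iff_eq_mul]
  ext1 ⟨p, x⟩
  simp [Perm.mul_apply]

/-- the shift of the row `j = 0` -/
def sRow : Perm (ℤ × ℤ) where
  toFun p := if p.2 = 0 then (p.1 + 1, p.2) else p
  invFun p := if p.2 = 0 then (p.1 - 1, p.2) else p
  left_inv p := by
    by_cases h : p.2 = 0 <;> simp [h]
    · exact Prod.ext rfl h.symm
  right_inv p := by
    by_cases h : p.2 = 0 <;> simp [h]
    · exact Prod.ext rfl h.symm

/-- the shift in the direction `j` -/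
def rCol : Perm (ℤ × ℤ) := Equiv.prodCongr (Equiv.refl ℤ) (Equiv.addRight 1)

theorem rCol_pow (n : ℕ) (p : ℤ × ℤ) : (rCol ^ n) p = (p.1, p.2 + n) := by
  induction n generalizing p with
  | zero => simp
  | succ n ih =>
    rw [pow_succ, Perm.mul_apply, ih]
    simp [rCol]
    ring

theorem key_comm (g : ℕ → Perm ℕ) (n : ℕ) :
    ∃ u : Perm Om, ∃ u' : Perm Om, u = T (fun p => if 0 ≤ p.1 ∧ 0 ≤ p.2 then g p.2.toNat else 1) ∧
      u' = (B (rCol ^ n))⁻¹ * u * B (rCol ^ n) ∧
      T (fun p => if p = 0 then g n else 1) = u' * (B sRow * u' * (B sRow)⁻¹)⁻¹ := by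
  refine ⟨_, _, rfl, rfl, ?_⟩
  have h1 : (B (rCol ^ n))⁻¹ * T (fun p => if 0 ≤ p.1 ∧ 0 ≤ p.2 then g p.2.toNat else 1) *
      B (rCol ^ n) = T (fun p => if 0 ≤ p.1 ∧ 0 ≤ p.2 + n then g (p.2 + n).toNat else 1) := by
    have h2 : (B (rCol ^ n))⁻¹ = B ((rCol ^ n)⁻¹) := rfl
    have h3 : B (rCol ^ n) = (B ((rCol ^ n)⁻¹))⁻¹ := by
      rw [← h2, inv_inv]
    rw [h2, h3, B_conj]
    congr 1
    funext p
    rw [inv_inv, rCol_pow]
  rw [h1, B_conj, T_mul_inv]
  congr 1
  funext p
  obtain ⟨i, j⟩ := p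
  have h4 : (sRow⁻¹ : Perm (ℤ × ℤ)) (i, j) = if j = 0 then (i - 1, j) else (i, j) := rfl
  rw [h4]
  by_cases hj : j = 0
  · subst hj
    simp only [if_true, zero_add, Prod.mk_eq_zero, and_true, Nat.cast_nonneg, Int.toNat_natCast]
    rcases lt_trichotomy i 0 with hi | hi | hi
    · have h5 : ¬ (0 ≤ i) := by omega
      have h6 : ¬ (1 ≤ i) := by omega
      have h7 : ¬ (i = 0) := by omega
      simp [h5, h6, h7]
    · subst hi
      simp
    · have h5 : 0 ≤ i := by omega
      have h6 : 1 ≤ i := by omega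
      have h7 : ¬ (i = 0) := by omega
      simp [h5, h6, h7]
  · simp [hj]

/-- a length function is bounded on the permutations of one fibre -/
theorem bounded_fibre {f : Perm Om → ℕ} (hf : IsLen f) :
    ∃ C, ∀ g : Perm ℕ, f (T (fun p => if p = 0 then g else 1)) ≤ C := by
  by_contra hcon
  push Not at hcon
  choose g hg using fun n : ℕ => hcon (n ^ 2)
  set u : Perm Om := T (fun p => if 0 ≤ p.1 ∧ 0 ≤ p.2 then g p.2.toNat else 1) with hu
  have key : ∀ n : ℕ, n ^ 2 < 2 * (f u + 2 * (f 1 + n * f (B rCol))) + 2 * f (B sRow) := by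
    intro n
    obtain ⟨u1, u', h1, h2, h3⟩ := key_comm g n
    rw [← hu] at h1
    subst h1
    have h4 := hg n
    rw [h3] at h4
    have h5 := hf.mul u' (B sRow * u' * (B sRow)⁻¹)⁻¹
    have h6 := hf.inv (B sRow * u' * (B sRow)⁻¹)
    have h7 := hf.conj (B sRow) u'
    have h8 : f u' ≤ f u + 2 * f (B (rCol ^ n)) := by
      have h9 := hf.conj (B (rCol ^ n))⁻¹ u
      rw [inv_inv, hf.inv, ← h2] at h9
      exact h9
    have h10 : f (B (rCol ^ n)) ≤ f 1 + n * f (B rCol) := by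
      have h11 : B (rCol ^ n) = (B rCol) ^ n := by
        clear * -
        induction n with
        | zero => rfl
        | succ n ih =>
          rw [pow_succ, pow_succ, ← ih]
          rfl
      rw [h11]
      exact hf.pow _ _
    omega
  have h := key (2 * (f u + 2 * f 1) + 2 * f (B sRow) + 4 * f (B rCol) + 1)
  set a := f u
  set b := f 1
  set c := f (B rCol)
  set d := f (B sRow)
  nlinarith [Nat.zero_le a, Nat.zero_le b, Nat.zero_le c, Nat.zero_le d]

/-- a length function on `Perm ℕ` is bounded on the permutations supported in a moiety -/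
theorem bounded_moiety {f : Perm ℕ → ℕ} (hf : IsLen f) (D : Set ℕ) (hD : D.Infinite)
    (hD' : Dᶜ.Infinite) : ∃ C, ∀ g : Perm ℕ, (∀ x, x ∉ D → g x = x) → f g ≤ C := by
  classical
  obtain ⟨e, he⟩ : ∃ e : ℕ ≃ Om, ∀ x, (e x).1 = 0 ↔ x ∈ D := by
    have h1 : ∀ c : Prop, Nonempty ({a : ℕ // (a ∈ D) = c} ≃ {b : Om // (b.1 = 0) = c}) := by
      intro c
      have i1 : Infinite {a : ℕ // (a ∈ D) = c} := by
        by_cases hc : c
        · have : {a : ℕ | (a ∈ D) = c} = D := by ext a; simp [hc]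
          rw [← this] at hD
          exact hD.to_subtype
        · have : {a : ℕ | (a ∈ D) = c} = Dᶜ := by ext a; simp [hc]
          rw [← this] at hD'
          exact hD'.to_subtype
      have i2 : Infinite {b : Om // (b.1 = 0) = c} := by
        by_cases hc : c
        · refine Infinite.of_injective (fun n : ℕ => ⟨((0, 0), n), ?_⟩) ?_
          · simp [hc]
          · intro a b hab
            simpa using hab
        · refine Infinite.of_injective (fun n : ℕ => ⟨((1, 0), n), ?_⟩) ?_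
          · simp [hc]
          · intro a b hab
            simpa using hab
      exact nonempty_equiv_of_countable
    let E := fun c => (h1 c).some
    refine ⟨Equiv.ofFiberEquiv (f := fun a : ℕ => (a ∈ D)) (g := fun b : Om => (b.1 = 0)) E, ?_⟩
    intro x
    have h2 := Equiv.ofFiberEquiv_map (f := fun a : ℕ => (a ∈ D)) (g := fun b : Om => (b.1 = 0)) E x
    exact iff_of_eq h2
  have hf' : IsLen (fun g : Perm Om => f (e.symm.permCongr g)) := by
    constructor
    · intro a b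
      have : e.symm.permCongr (a * b) = e.symm.permCongr a * e.symm.permCongr b := by
        ext x
        simp [Equiv.permCongr_apply]
      rw [this]
      exact hf.mul _ _
    · intro a
      have : e.symm.permCongr a⁻¹ = (e.symm.permCongr a)⁻¹ := by
        rw [eq_inv_iff_mul_eq_one]
        ext x
        simp [Equiv.permCongr_apply]
      rw [this]
      exact hf.inv _
  obtain ⟨C, hC⟩ := bounded_fibre hf'
  refine ⟨C, fun g hg => ?_⟩
  -- the fibre part of `g`
  have hgD : ∀ x, x ∈ D → g x ∈ D := by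
    intro x hx
    by_contra hcon
    have h1 := hg _ hcon
    have h2 : g x = x := g.injective h1
    rw [h2] at hcon
    exact hcon hx
  have hgD' : ∀ x, x ∈ D → g⁻¹ x ∈ D := by
    intro x hx
    by_contra hcon
    have h1 := hg _ hcon
    have h2 : g (g⁻¹ x) = x := g.apply_symm_apply x
    rw [h2] at h1
    rw [← h1] at hcon
    exact hcon hx
  have he0 : ∀ y : ℕ, e.symm ((0, 0), y) ∈ D := fun y => (he _).1 (by simp)
  have he1 : ∀ x, x ∈ D → ((0, 0), (e x).2) = e x := by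
    intro x hx
    have h := (he x).2 hx
    exact Prod.ext h.symm rfl
  let g' : Perm ℕ :=
    { toFun := fun y => (e (g (e.symm ((0, 0), y)))).2
      invFun := fun y => (e (g⁻¹ (e.symm ((0, 0), y)))).2
      left_inv := by
        intro y
        show (e (g⁻¹ (e.symm ((0, 0), (e (g (e.symm ((0, 0), y)))).2)))).2 = y
        rw [he1 _ (hgD _ (he0 y))]
        simp
      right_inv := by
        intro y
        show (e (g (e.symm ((0, 0), (e (g⁻¹ (e.symm ((0, 0), y)))).2)))).2 = y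
        rw [he1 _ (hgD' _ (he0 y))]
        simp }
  have h := hC g'
  have h2 : e.symm.permCongr (T (fun p => if p = 0 then g' else 1)) = g := by
    ext x
    rw [Equiv.permCongr_apply, Equiv.symm_symm]
    by_cases hx : x ∈ D
    · have h3 := he1 x hx
      rw [← h3]
      have h4 : T (fun p => if p = 0 then g' else 1) ((0, 0), (e x).2) = ((0, 0), g' (e x).2) := by
        simp [T]
      rw [h4]
      have h5 : g' (e x).2 = (e (g x)).2 := by
        show (e (g (e.symm ((0, 0), (e x).2)))).2 = _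
        rw [h3, Equiv.symm_apply_apply]
      rw [h5, he1 _ (hgD x hx), Equiv.symm_apply_apply]
    · have h3 : (e x).1 ≠ 0 := fun h => hx ((he x).1 h)
      have h4 : ∀ q : Om, q.1 ≠ 0 → T (fun p => if p = 0 then g' else 1) q = q := by
        rintro ⟨p, y⟩ hq
        simp only at hq
        simp [T, hq]
      have h4 := h4 _ h3
      rw [h4, Equiv.symm_apply_apply, hg x hx]
  rw [h2] at h
  exact h

/-- moving subsets of `S` -/
theorem exists_move (S Γ Γ' : Set ℕ) (h1 : (S ∩ Γ).Infinite) (h2 : (S \ Γ).Infinite)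
    (h3 : (S ∩ Γ').Infinite) (h4 : (S \ Γ').Infinite) :
    ∃ u : Perm ℕ, (∀ x, x ∉ S → u x = x) ∧ (∀ x ∈ S, u x ∈ S) ∧ ∀ x ∈ S, (u x ∈ Γ' ↔ x ∈ Γ) := by
  classical
  let F : ℕ → ℕ ⊕ Prop := fun x => if x ∈ S then Sum.inr (x ∈ Γ) else Sum.inl x
  let F' : ℕ → ℕ ⊕ Prop := fun x => if x ∈ S then Sum.inr (x ∈ Γ') else Sum.inl x
  have hE : ∀ c, Nonempty ({a : ℕ // F a = c} ≃ {b : ℕ // F' b = c}) := by
    rintro (n | c)
    · refine ⟨Equiv.subtypeEquivRight fun x => ?_⟩
      by_cases hx : x ∈ S <;> simp [F, F', hx]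
    · have i1 : Infinite {a : ℕ // F a = Sum.inr c} := by
        by_cases hc : c
        · have : {a : ℕ | F a = Sum.inr c} = S ∩ Γ := by
            ext a
            by_cases ha : a ∈ S <;> simp [F, ha, hc]
          rw [← this] at h1
          exact h1.to_subtype
        · have : {a : ℕ | F a = Sum.inr c} = S \ Γ := by
            ext a
            by_cases ha : a ∈ S <;> simp [F, ha, hc]
          rw [← this] at h2
          exact h2.to_subtype
      have i2 : Infinite {a : ℕ // F' a = Sum.inr c} := by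
        by_cases hc : c
        · have : {a : ℕ | F' a = Sum.inr c} = S ∩ Γ' := by
            ext a
            by_cases ha : a ∈ S <;> simp [F', ha, hc]
          rw [← this] at h3
          exact h3.to_subtype
        · have : {a : ℕ | F' a = Sum.inr c} = S \ Γ' := by
            ext a
            by_cases ha : a ∈ S <;> simp [F', ha, hc]
          rw [← this] at h4
          exact h4.to_subtype
      exact nonempty_equiv_of_countable
  let E := fun c => (hE c).some
  refine ⟨Equiv.ofFiberEquiv (f := F) (g := F') E, ?_, ?_, ?_⟩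
  · intro x hx
    have h := Equiv.ofFiberEquiv_map (f := F) (g := F') E x
    have h5 : F x = Sum.inl x := by simp [F, hx]
    rw [h5] at h
    set y := Equiv.ofFiberEquiv (f := F) (g := F') E x
    by_cases hy : y ∈ S
    · simp [F', hy] at h
    · simpa [F', hy] using h
  · intro x hx
    have h := Equiv.ofFiberEquiv_map (f := F) (g := F') E x
    set y := Equiv.ofFiberEquiv (f := F) (g := F') E x
    by_contra hy
    simp [F, F', hx, hy] at h
  · intro x hx
    have h := Equiv.ofFiberEquiv_map (f := F) (g := F') E x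
    set y := Equiv.ofFiberEquiv (f := F) (g := F') E x
    by_cases hy : y ∈ S
    · simpa [F, F', hx, hy] using h
    · simp [F, F', hx, hy] at h

/-- the multiples of two -/
def Ev : Set ℕ := {x | x % 2 = 0}

/-- the complement of a residue class modulo three -/
def Pc (c : ℕ) : Set ℕ := {x | x % 3 ≠ c}

theorem inf_mod (r : ℕ) (hr : r < 6) (S : Set ℕ) (h : ∀ x, x % 6 = r → x ∈ S) : S.Infinite := by
  refine Set.infinite_of_injective_forall_mem (f := fun n : ℕ => 6 * n + r) ?_ ?_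
  · intro a b hab
    simp only at hab
    omega
  · intro n
    apply h
    omega

/-- **Bergman's theorem**: length functions on `Perm ℕ` are bounded. -/
theorem bergman {f : Perm ℕ → ℕ} (hf : IsLen f) : ∃ C, ∀ g, f g ≤ C := by
  classical
  have hP : ∀ c : ℕ, c < 3 → ∃ C, ∀ g : Perm ℕ, (∀ x, x ∉ Pc c → g x = x) → f g ≤ C := by
    intro c hc
    apply bounded_moiety hf
    · obtain rfl | rfl | rfl : c = 0 ∨ c = 1 ∨ c = 2 := by omega
      · exact inf_mod 1 (by omega) _ (fun x hx => by simp only [Pc, Set.mem_ofPred_eq]; omega)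
      · exact inf_mod 0 (by omega) _ (fun x hx => by simp only [Pc, Set.mem_ofPred_eq]; omega)
      · exact inf_mod 0 (by omega) _ (fun x hx => by simp only [Pc, Set.mem_ofPred_eq]; omega)
    · exact inf_mod c (by omega) _ (fun x hx => by
        simp only [Pc, Set.mem_compl_iff, Set.mem_ofPred_eq]; omega)
  have hE : ∃ C, ∀ g : Perm ℕ, (∀ x, x ∉ Ev → g x = x) → f g ≤ C := by
    apply bounded_moiety hf
    · exact inf_mod 0 (by omega) _ (fun x hx => by simp only [Ev, Set.mem_ofPred_eq]; omega)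
    · exact inf_mod 1 (by omega) _ (fun x hx => by
        simp only [Ev, Set.mem_compl_iff, Set.mem_ofPred_eq]; omega)
  have hE' : ∃ C, ∀ g : Perm ℕ, (∀ x, x ∉ Evᶜ → g x = x) → f g ≤ C := by
    apply bounded_moiety hf
    · exact inf_mod 1 (by omega) _ (fun x hx => by
        simp only [Ev, Set.mem_compl_iff, Set.mem_ofPred_eq]; omega)
    · rw [compl_compl]
      exact inf_mod 0 (by omega) _ (fun x hx => by simp only [Ev, Set.mem_ofPred_eq]; omega)
  obtain ⟨C0, hC0⟩ := hP 0 (by omega)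
  obtain ⟨C1, hC1⟩ := hP 1 (by omega)
  obtain ⟨C2, hC2⟩ := hP 2 (by omega)
  obtain ⟨C3, hC3⟩ := hE
  obtain ⟨C4, hC4⟩ := hE'
  have hPC : ∀ c : ℕ, c < 3 → ∀ g : Perm ℕ, (∀ x, x ∉ Pc c → g x = x) → f g ≤ C0 + C1 + C2 := by
    intro c hc g hg
    obtain rfl | rfl | rfl : c = 0 ∨ c = 1 ∨ c = 2 := by omega
    · have := hC0 g hg; omega
    · have := hC1 g hg; omega
    · have := hC2 g hg; omega
  refine ⟨2 * (C0 + C1 + C2) + C3 + C4, fun g => ?_⟩
  -- the image of the even numbers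
  let Γ : Set ℕ := {x | g⁻¹ x ∈ Ev}
  have hΓ : Γ.Infinite := by
    refine Set.infinite_of_injective_forall_mem (f := fun n : ℕ => g (2 * n)) ?_ ?_
    · intro a b hab
      have := g.injective hab
      omega
    · intro n
      show g⁻¹ (g (2 * n)) ∈ Ev
      have : g⁻¹ (g (2 * n)) = 2 * n := g.symm_apply_apply _
      rw [this]
      simp [Ev]
  have hΓ' : Γᶜ.Infinite := by
    refine Set.infinite_of_injective_forall_mem (f := fun n : ℕ => g (2 * n + 1)) ?_ ?_
    · intro a b hab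
      have := g.injective hab
      omega
    · intro n
      show ¬ (g⁻¹ (g (2 * n + 1)) ∈ Ev)
      have : g⁻¹ (g (2 * n + 1)) = 2 * n + 1 := g.symm_apply_apply _
      rw [this]
      simp only [Ev, Set.mem_ofPred_eq]
      omega
  have split : ∀ A : Set ℕ, A.Infinite → ∃ i < 3, (A ∩ {x | x % 3 = i}).Infinite := by
    intro A hA
    by_contra hcon
    push Not at hcon
    have h0 := hcon 0 (by omega)
    have h1 := hcon 1 (by omega)
    have h2 := hcon 2 (by omega)
    apply hA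
    refine ((h0.union h1).union h2).subset ?_
    intro x hx
    have : x % 3 = 0 ∨ x % 3 = 1 ∨ x % 3 = 2 := by omega
    rcases this with h | h | h
    · exact Or.inl (Or.inl ⟨hx, h⟩)
    · exact Or.inl (Or.inr ⟨hx, h⟩)
    · exact Or.inr ⟨hx, h⟩
  obtain ⟨i, hi, hi'⟩ := split Γ hΓ
  obtain ⟨j, hj, hj'⟩ := split Γᶜ hΓ'
  obtain ⟨c, hc, hci, hcj⟩ : ∃ c < 3, c ≠ i ∧ c ≠ j := by
    by_cases h0 : (0 ≠ i ∧ 0 ≠ j)
    · exact ⟨0, by omega, h0⟩
    · by_cases h1 : (1 ≠ i ∧ 1 ≠ j)
      · exact ⟨1, by omega, h1⟩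
      · exact ⟨2, by omega, by omega, by omega⟩
  obtain ⟨c', hc', hcc'⟩ : ∃ c' < 3, c' ≠ c := by
    by_cases h0 : (0 ≠ c)
    · exact ⟨0, by omega, h0⟩
    · exact ⟨1, by omega, by omega⟩
  obtain ⟨i', hi3, hi'c, hi'c'⟩ : ∃ i' < 3, i' ≠ c ∧ i' ≠ c' := by
    by_cases h0 : (0 ≠ c ∧ 0 ≠ c')
    · exact ⟨0, by omega, h0⟩
    · by_cases h1 : (1 ≠ c ∧ 1 ≠ c')
      · exact ⟨1, by omega, h1⟩
      · exact ⟨2, by omega, by omega, by omega⟩
  -- first move
  have hmod : ∀ e i : ℕ, e < 2 → i < 3 → ∃ r < 6, ∀ x, x % 6 = r → x % 2 = e ∧ x % 3 = i := by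
    intro e i he hi
    refine ⟨(3 * e + 4 * i) % 6, by omega, ?_⟩
    intro x hx
    omega
  have hEvP : ∀ c : ℕ, c < 3 → ∀ i < 3, i ≠ c → (Pc c ∩ Ev ∩ {x | x % 3 = i}).Infinite := by
    intro c hc i hi hic
    obtain ⟨r, hr, h⟩ := hmod 0 i (by omega) hi
    refine inf_mod r hr _ (fun x hx => ?_)
    obtain ⟨h1, h2⟩ := h x hx
    exact ⟨⟨by simp only [Pc, Set.mem_ofPred_eq]; omega, h1⟩, h2⟩
  have hEvP' : ∀ c : ℕ, c < 3 → ∀ i < 3, i ≠ c → ((Pc c \ Ev) ∩ {x | x % 3 = i}).Infinite := by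
    intro c hc i hi hic
    obtain ⟨r, hr, h⟩ := hmod 1 i (by omega) hi
    refine inf_mod r hr _ (fun x hx => ?_)
    obtain ⟨h1, h2⟩ := h x hx
    exact ⟨⟨by simp only [Pc, Set.mem_ofPred_eq]; omega, by
      simp only [Ev, Set.mem_ofPred_eq]; omega⟩, h2⟩
  obtain ⟨u, hu1, hu2, hu3⟩ := exists_move (Pc c) Γ Ev
    (hi'.mono (by
      rintro x ⟨h1, h2⟩
      exact ⟨by simp only [Pc, Set.mem_ofPred_eq] at h2 ⊢; omega, h1⟩))
    (hj'.mono (by
      rintro x ⟨h1, h2⟩
      exact ⟨by simp only [Pc, Set.mem_ofPred_eq] at h2 ⊢; omega, h1⟩))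
    ((hEvP c hc i' hi3 hi'c).mono (by rintro x ⟨h1, h2⟩; exact h1))
    ((hEvP' c hc i' hi3 hi'c).mono (by rintro x ⟨h1, h2⟩; exact h1))
  have hu2' : ∀ x ∈ Pc c, u⁻¹ x ∈ Pc c := by
    intro x hx
    by_contra hcon
    have h1 := hu1 _ hcon
    have h2 : u (u⁻¹ x) = x := u.apply_symm_apply x
    rw [h2] at h1
    rw [← h1] at hcon
    exact hcon hx
  let Γ1 : Set ℕ := {x | u⁻¹ x ∈ Γ}
  have hΓ1 : ∀ x ∈ Pc c, (x ∈ Γ1 ↔ x ∈ Ev) := by
    intro x hx
    have h1 := hu3 _ (hu2' x hx)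
    have h2 : u (u⁻¹ x) = x := u.apply_symm_apply x
    rw [h2] at h1
    exact h1.symm
  obtain ⟨v, hv1, hv2, hv3⟩ := exists_move (Pc c') Γ1 Ev
    ((hEvP c' hc' i' hi3 hi'c').mono (by
      rintro x ⟨⟨h1, h2⟩, h3⟩
      refine ⟨h1, (hΓ1 x ?_).2 h2⟩
      simp only [Pc, Set.mem_ofPred_eq] at h3 ⊢; omega))
    ((hEvP' c' hc' i' hi3 hi'c').mono (by
      rintro x ⟨⟨h1, h2⟩, h3⟩
      refine ⟨h1, fun h4 => h2 ((hΓ1 x ?_).1 h4)⟩
      simp only [Pc, Set.mem_ofPred_eq] at h3 ⊢; omega))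
    ((hEvP c' hc' i' hi3 hi'c').mono (by rintro x ⟨h1, h2⟩; exact h1))
    ((hEvP' c' hc' i' hi3 hi'c').mono (by rintro x ⟨h1, h2⟩; exact h1))
  have hv4 : ∀ y, v y ∈ Ev ↔ y ∈ Γ1 := by
    intro y
    by_cases hy : y ∈ Pc c'
    · exact hv3 y hy
    · rw [hv1 y hy]
      refine (hΓ1 y ?_).symm
      simp only [Pc, Set.mem_ofPred_eq] at hy ⊢
      omega
  set w : Perm ℕ := v * u * g with hw
  have hwE : ∀ x, x ∈ Ev ↔ w x ∈ Ev := by
    intro x
    show x ∈ Ev ↔ v (u (g x)) ∈ Ev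
    rw [hv4]
    show x ∈ Ev ↔ g⁻¹ (u⁻¹ (u (g x))) ∈ Ev
    have h1 : u⁻¹ (u (g x)) = g x := u.symm_apply_apply _
    have h2 : g⁻¹ (g x) = x := g.symm_apply_apply _
    rw [h1, h2]
  let w1 : Perm ℕ := Perm.ofSubtype (w.subtypePerm (p := fun x => x ∈ Ev) (fun x => (hwE x).symm))
  have hw1 : ∀ x ∈ Ev, w1 x = w x := by
    intro x hx
    simp [w1, Perm.ofSubtype_apply_of_mem, hx]
  have hw1' : ∀ x, x ∉ Ev → w1 x = x := by
    intro x hx
    exact Perm.ofSubtype_apply_of_not_mem _ hx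
  have h1 := hC3 w1 hw1'
  have h2 := hC4 (w1⁻¹ * w) (by
    intro x hx
    have hx : x ∈ Ev := by simpa using hx
    show w1⁻¹ (w x) = x
    rw [← hw1 x hx]
    exact w1.symm_apply_apply x)
  have h3 : f w ≤ C3 + C4 := by
    have h4 : w = w1 * (w1⁻¹ * w) := by group
    rw [h4]
    have := hf.mul w1 (w1⁻¹ * w)
    omega
  have h5 : g = u⁻¹ * (v⁻¹ * w) := by rw [hw]; group
  have h6 := hf.mul u⁻¹ (v⁻¹ * w)
  have h7 := hf.mul v⁻¹ w
  rw [← h5, hf.inv] at h6
  rw [hf.inv] at h7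
  have h8 := hPC c hc u hu1
  have h9 := hPC c' hc' v hv1
  omega

end Pool.Agent.K4H27.QP
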