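import Mathlib

/-!
# Length functions satisfying the four point condition
-/

set_option autoImplicit false

namespace Pool.Agent.K4H27.QP

/-- A real length function satisfying the four point condition. -/
structure HypLen {G : Type*} [Group G] (L : G → ℝ) (δ : ℝ) : Prop where
  one : L 1 = 0
  mul : ∀ a b, L (a * b) ≤ L a + L b
  inv : ∀ a, L a⁻¹ = L a
  four : ∀ x y z w, L (x⁻¹ * z) + L (y⁻¹ * w) ≤
    max (L (x⁻¹ * y) + L (z⁻¹ * w)) (L (y⁻¹ * z) + L (x⁻¹ * w)) + 2 * δ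

variable {G : Type*} [Group G] {L : G → ℝ} {δ : ℝ}

namespace HypLen

theorem nonneg (h : HypLen L δ) (a : G) : 0 ≤ L a := by
  have h1 := h.mul a a⁻¹
  rw [mul_inv_cancel, h.one, h.inv] at h1
  linarith

theorem delta_nonneg (h : HypLen L δ) : 0 ≤ δ := by
  have h1 := h.four 1 1 1 1
  simp only [inv_one, mul_one, h.one, max_self] at h1
  linarith

theorem symm (h : HypLen L δ) (x y : G) : L (x⁻¹ * y) = L (y⁻¹ * x) := by
  rw [← h.inv (x⁻¹ * y), mul_inv_rev, inv_inv]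

theorem pow_le (h : HypLen L δ) (a : G) (n : ℕ) : L (a ^ n) ≤ n * L a := by
  induction n with
  | zero => simp [h.one]
  | succ n ih =>
    rw [pow_succ]
    have := h.mul (a ^ n) a
    push_cast
    linarith

theorem conj_le (h : HypLen L δ) (a b : G) : L (a * b * a⁻¹) ≤ L b + 2 * L a := by
  have h1 := h.mul (a * b) a⁻¹
  have h2 := h.mul a b
  rw [h.inv] at h1
  linarith

theorem conj_ge (h : HypLen L δ) (a b : G) : L b ≤ L (a * b * a⁻¹) + 2 * L a := by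
  have h1 := h.conj_le a⁻¹ (a * b * a⁻¹)
  rw [h.inv] at h1
  have h2 : a⁻¹ * (a * b * a⁻¹) * a⁻¹⁻¹ = b := by group
  rw [h2] at h1
  linarith

theorem fourpow (h : HypLen L δ) (t : G) (p q r : ℕ) :
    L (t ^ (p + q)) + L (t ^ (q + r)) ≤
      max (L (t ^ p) + L (t ^ r)) (L (t ^ q) + L (t ^ (p + q + r))) + 2 * δ := by
  have h1 := h.four 1 (t ^ p) (t ^ (p + q)) (t ^ (p + q + r))
  have e1 : (1 : G)⁻¹ * t ^ (p + q) = t ^ (p + q) := by simp
  have e2 : (t ^ p)⁻¹ * t ^ (p + q + r) = t ^ (q + r) := by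
    rw [inv_mul_eq_iff_eq_mul, ← pow_add, add_assoc]
  have e3 : (1 : G)⁻¹ * t ^ p = t ^ p := by simp
  have e4 : (t ^ (p + q))⁻¹ * t ^ (p + q + r) = t ^ r := by
    rw [inv_mul_eq_iff_eq_mul, ← pow_add]
  have e5 : (t ^ p)⁻¹ * t ^ (p + q) = t ^ q := by
    rw [inv_mul_eq_iff_eq_mul, ← pow_add]
  have e6 : (1 : G)⁻¹ * t ^ (p + q + r) = t ^ (p + q + r) := by simp
  rw [e1, e2, e3, e4, e5, e6] at h1
  exact h1

theorem exists_two_pow (A B : ℝ) : ∃ k : ℕ, A + B * k < 2 ^ k := by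
  obtain ⟨M, hM⟩ := exists_nat_ge (max A B)
  have hA : A ≤ M := (le_max_left _ _).trans hM
  have hB : B ≤ M := (le_max_right _ _).trans hM
  refine ⟨2 * (2 * M), ?_⟩
  have h1 : ((2 * M : ℕ) : ℝ) + 1 ≤ 2 ^ (2 * M) := by
    have := (Nat.lt_two_pow_self (n := 2 * M))
    exact_mod_cast this
  have h2 : (2 : ℝ) ^ (2 * (2 * M)) = 2 ^ (2 * M) * 2 ^ (2 * M) := by
    rw [two_mul, pow_add]
  rw [h2]
  have h3 : (0 : ℝ) ≤ M := Nat.cast_nonneg M
  push_cast at h1 ⊢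
  nlinarith

/-- the powers of a loxodromic element -/
theorem exists_K (h : HypLen L δ) (t : G) {c : ℝ} (hc : 0 < c)
    (ht : ∀ n : ℕ, c * n ≤ L (t ^ n)) :
    ∃ K, 0 ≤ K ∧ ∀ n m : ℕ, L (t ^ n) + L (t ^ m) ≤ L (t ^ (n + m)) + K := by
  have hδ := h.delta_nonneg
  -- step 1
  obtain ⟨N, hN, hN2⟩ : ∃ N : ℕ, 1 ≤ N ∧ L (t ^ N) + 2 * δ < L (t ^ (2 * N)) := by
    by_contra hcon
    push Not at hcon
    have h1 : ∀ k : ℕ, L (t ^ (2 ^ k)) ≤ L t + 2 * δ * k := by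
      intro k
      induction k with
      | zero => simp
      | succ k ih =>
        have h2 := hcon (2 ^ k) Nat.one_le_two_pow
        have h3 : 2 ^ (k + 1) = 2 * 2 ^ k := by ring
        rw [h3]
        push_cast
        linarith
    obtain ⟨k, hk⟩ := exists_two_pow (L t / c) (2 * δ / c)
    have h2 := h1 k
    have h3 := ht (2 ^ k)
    push_cast at h3
    have h4 : c * (L t / c + 2 * δ / c * k) < c * 2 ^ k := by
      exact mul_lt_mul_of_pos_left hk hc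
    have h5 : c * (L t / c + 2 * δ / c * k) = L t + 2 * δ * k := by
      field_simp
    linarith
  -- step 2
  set μ := L (t ^ (2 * N)) - L (t ^ N) - 2 * δ with hμ
  have hμ0 : 0 < μ := by linarith
  have step2 : ∀ k : ℕ, L (t ^ (k * N)) + μ ≤ L (t ^ ((k + 1) * N)) := by
    intro k
    induction k with
    | zero =>
      have h1 := h.mul (t ^ N) (t ^ N)
      rw [← pow_add, ← two_mul] at h1
      simp only [zero_mul, pow_zero, h.one, zero_add, one_mul]
      linarith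
    | succ k ih =>
      have h1 := h.fourpow t N N (k * N)
      have e1 : N + N = 2 * N := by ring
      have e2 : N + k * N = (k + 1) * N := by ring
      have e3 : N + N + k * N = (k + 1 + 1) * N := by ring
      rw [e3, e2, e1] at h1
      rcases le_total (L (t ^ N) + L (t ^ (k * N))) (L (t ^ N) + L (t ^ ((k + 1 + 1) * N)))
        with h2 | h2
      · rw [max_eq_right h2] at h1
        linarith
      · rw [max_eq_left h2] at h1
        linarith
  have step2' : ∀ k j : ℕ, L (t ^ (k * N)) + j * μ ≤ L (t ^ ((k + j) * N)) := by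
    intro k j
    induction j with
    | zero => simp
    | succ j ih =>
      have h1 := step2 (k + j)
      have e : k + (j + 1) = k + j + 1 := by ring
      rw [e]
      push_cast
      linarith
  -- step 3
  obtain ⟨M', hM'⟩ := exists_nat_gt ((2 * (N * L t) + δ) / μ)
  rw [div_lt_iff₀ hμ0] at hM'
  set M := M' * N with hM
  have ha : 0 ≤ L t := h.nonneg t
  have step3 : ∀ n : ℕ, L (t ^ n) + δ < L (t ^ (n + M)) := by
    intro n
    obtain ⟨k, r, hr, hn⟩ : ∃ k r, r < N ∧ n = k * N + r :=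
      ⟨n / N, n % N, Nat.mod_lt _ (by omega), by rw [mul_comm]; exact (Nat.div_add_mod n N).symm⟩
    have h1 : L (t ^ n) ≤ L (t ^ (k * N)) + L (t ^ r) := by
      rw [hn, pow_add]
      exact h.mul _ _
    have h2 : L (t ^ r) ≤ N * L t := by
      refine (h.pow_le t r).trans ?_
      have : (r : ℝ) ≤ N := by exact_mod_cast hr.le
      exact mul_le_mul_of_nonneg_right this ha
    have h3 := step2' k M'
    have h4 : L (t ^ ((k + M') * N)) ≤ L (t ^ (n + M)) + L (t ^ r) := by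
      have e : t ^ ((k + M') * N) = t ^ (n + M) * (t ^ r)⁻¹ := by
        rw [eq_mul_inv_iff_mul_eq, ← pow_add]
        congr 1
        rw [hn, hM]
        ring
      rw [e]
      have := h.mul (t ^ (n + M)) (t ^ r)⁻¹
      rw [h.inv] at this
      exact this
    linarith
  -- step 4
  refine ⟨2 * L (t ^ M), by have := h.nonneg (t ^ M); linarith, fun n m => ?_⟩
  have h1 := h.fourpow t n M m
  have h2 := step3 n
  have h3 := step3 m
  have e1 : M + m = m + M := by ring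
  have e2 : n + M + m = (n + m) + M := by ring
  rw [e1, e2] at h1
  have h4 : L (t ^ (n + m + M)) ≤ L (t ^ (n + m)) + L (t ^ M) := by
    rw [pow_add]
    exact h.mul _ _
  rcases le_total (L (t ^ n) + L (t ^ m)) (L (t ^ M) + L (t ^ (n + m + M))) with h5 | h5
  · rw [max_eq_right h5] at h1
    linarith
  · rw [max_eq_left h5] at h1
    linarith

/-- Claim B: elements all of whose powers are uniformly bounded after conjugation do not move the
horofunction. -/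
theorem claimB (h : HypLen L δ) (t : G) {c : ℝ} (hc : 0 < c) (ht : ∀ n : ℕ, c * n ≤ L (t ^ n))
    (g : G) (C : ℝ) (hC : ∀ i m : ℕ, L (t ^ m * g ^ i * (t ^ m)⁻¹) ≤ C) :
    ∃ m₀ : ℕ, ∀ m, m₀ ≤ m → |L (g⁻¹ * (t ^ m)⁻¹) - L (t ^ m)| ≤ 2 * δ := by
  have hδ := h.delta_nonneg
  obtain ⟨m₀, hm₀⟩ := exists_nat_ge ((L g + C) / c)
  rw [div_le_iff₀ hc] at hm₀
  refine ⟨m₀, fun m hm => ?_⟩
  have ham : L g + C ≤ L (t ^ m) := by
    have h1 := ht m
    have h2 : (m₀ : ℝ) ≤ m := by exact_mod_cast hm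
    nlinarith
  set z := (t ^ m)⁻¹ with hz
  have hzL : L z = L (t ^ m) := h.inv _
  -- the points `z_i = g⁻ⁱ z`
  have hzi : ∀ i : ℕ, L (z⁻¹ * ((g ^ i)⁻¹ * z)) ≤ C := by
    intro i
    have h1 := hC i m
    have h2 : z⁻¹ * ((g ^ i)⁻¹ * z) = (t ^ m * g ^ i * (t ^ m)⁻¹)⁻¹ := by
      rw [hz]; group
    rw [h2, h.inv]
    exact h1
  -- distances from `1` and `g`
  set s := L (g⁻¹ * z) - L z with hs
  have step : ∀ i : ℕ, |L (g⁻¹ * ((g ^ i)⁻¹ * z)) - L ((g ^ i)⁻¹ * z) - s| ≤ 2 * δ := by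
    intro i
    set zi := (g ^ i)⁻¹ * z with hzi'
    have hd := hzi i
    have hd' : L (zi⁻¹ * z) ≤ C := by rw [h.symm]; exact hd
    have b1 : L (t ^ m) - C ≤ L zi := by
      have := h.mul zi (zi⁻¹ * z)
      rw [mul_inv_cancel_left] at this
      linarith
    have b2 : L zi - L g ≤ L (g⁻¹ * zi) := by
      have := h.mul g (g⁻¹ * zi)
      rw [mul_inv_cancel_left] at this
      linarith
    have b3 : L z - L g ≤ L (g⁻¹ * z) := by
      have := h.mul g (g⁻¹ * z)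
      rw [mul_inv_cancel_left] at this
      linarith
    -- d(g,z)+d(1,zi) ≤ max(d(g,zi)+d(1,z), d(g,1)+d(z,zi)) + 2δ
    have f1 := h.four g 1 z zi
    have f2 := h.four g 1 zi z
    simp only [inv_one, one_mul, mul_one, h.inv] at f1 f2
    -- f1 : L (g⁻¹ z) + L zi ≤ max (L g + L (z⁻¹ zi)) (L z + L (g⁻¹ zi)) + 2δ
    rw [abs_le]
    constructor
    · rcases le_total (L g + L (z⁻¹ * zi)) (L z + L (g⁻¹ * zi)) with h5 | h5
      · rw [max_eq_right h5] at f1
        linarith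
      · rw [max_eq_left h5] at f1
        linarith
    · rcases le_total (L g + L (zi⁻¹ * z)) (L zi + L (g⁻¹ * z)) with h5 | h5
      · rw [max_eq_right h5] at f2
        linarith
      · rw [max_eq_left h5] at f2
        linarith
  -- the sum
  have sum : ∀ k : ℕ, k * (s - 2 * δ) ≤ L ((g ^ k)⁻¹ * z) - L z ∧
      L ((g ^ k)⁻¹ * z) - L z ≤ k * (s + 2 * δ) := by
    intro k
    induction k with
    | zero => simp
    | succ k ih =>
      have h1 := step k
      have e : g⁻¹ * ((g ^ k)⁻¹ * z) = (g ^ (k + 1))⁻¹ * z := by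
        rw [pow_succ]; group
      rw [e, abs_le] at h1
      push_cast
      constructor <;> linarith [ih.1, ih.2, h1.1, h1.2]
  have bd : ∀ k : ℕ, |L ((g ^ k)⁻¹ * z) - L z| ≤ C := by
    intro k
    have h1 := hzi k
    have h2 := h.mul z (z⁻¹ * ((g ^ k)⁻¹ * z))
    rw [mul_inv_cancel_left] at h2
    have h3 := h.mul ((g ^ k)⁻¹ * z) (((g ^ k)⁻¹ * z)⁻¹ * z)
    rw [mul_inv_cancel_left] at h3
    have h4 := h.symm ((g ^ k)⁻¹ * z) z
    rw [abs_le]
    constructor <;> linarith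
  have hgoal : L (g⁻¹ * z) - L (t ^ m) = s := by rw [hs, hzL]
  rw [hgoal, abs_le]
  constructor
  · by_contra hcon
    push Not at hcon
    obtain ⟨k, hk⟩ := exists_nat_gt (C / (-(s + 2 * δ)))
    have hpos : 0 < -(s + 2 * δ) := by linarith
    rw [div_lt_iff₀ hpos] at hk
    have h1 := (sum k).2
    have h2 := bd k
    rw [abs_le] at h2
    nlinarith
  · by_contra hcon
    push Not at hcon
    obtain ⟨k, hk⟩ := exists_nat_gt (C / (s - 2 * δ))
    have hpos : 0 < s - 2 * δ := by linarith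
    rw [div_lt_iff₀ hpos] at hk
    have h1 := (sum k).1
    have h2 := bd k
    rw [abs_le] at h2
    nlinarith

/-- Claim C -/
theorem claimC (h : HypLen L δ) (t : G) {c : ℝ} (hc : 0 < c) (ht : ∀ n : ℕ, c * n ≤ L (t ^ n))
    {K : ℝ} (hK : ∀ n m : ℕ, L (t ^ n) + L (t ^ m) ≤ L (t ^ (n + m)) + K)
    (H : Subgroup G) (hH : ∀ g ∈ H, t * g * t⁻¹ ∈ H)
    (hB : ∀ g ∈ H, ∃ C, ∀ i m : ℕ, L (t ^ m * g ^ i * (t ^ m)⁻¹) ≤ C)
    (R : ℝ) (n : ℕ) (hn : K + R + 2 * δ ≤ 2 * L (t ^ n)) (g : G) (hg : g ∈ H) (hgR : L g ≤ R) :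
    L (t ^ n * g * (t ^ n)⁻¹) ≤ K + 6 * δ := by
  have hδ := h.delta_nonneg
  have hHn : ∀ n : ℕ, t ^ n * g * (t ^ n)⁻¹ ∈ H := by
    intro n
    induction n with
    | zero => simpa using hg
    | succ n ih =>
      have h1 := hH _ ih
      have e : t * (t ^ n * g * (t ^ n)⁻¹) * t⁻¹ = t ^ (n + 1) * g * (t ^ (n + 1))⁻¹ := by
        rw [pow_succ']; group
      rw [e] at h1
      exact h1
  set g' := t ^ n * g * (t ^ n)⁻¹ with hg'
  obtain ⟨C1, hC1⟩ := hB g hg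
  obtain ⟨C2, hC2⟩ := hB g' (hHn n)
  obtain ⟨m1, hm1⟩ := h.claimB t hc ht g C1 hC1
  obtain ⟨m2, hm2⟩ := h.claimB t hc ht g' C2 hC2
  set m := m1 + m2 with hm
  have B1 := hm1 (m + n) (by omega)
  have B2 := hm2 m (by omega)
  have hKm := hK n m
  have hadd : L (t ^ (n + m)) = L (t ^ (m + n)) := by rw [add_comm]
  -- points: x0 = 1, y0 = g, xn = t^{-n}, yn = g t^{-n}, z = t^{-(m+n)}
  set xn := (t ^ n)⁻¹ with hxn
  set z := (t ^ (m + n))⁻¹ with hz
  have d_xn_z : L (xn⁻¹ * z) = L (t ^ m) := by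
    have : xn⁻¹ * z = (t ^ m)⁻¹ := by
      rw [hxn, hz, pow_add]; group
    rw [this, h.inv]
  have d_yn_z : L ((g * xn)⁻¹ * z) = L (g'⁻¹ * (t ^ m)⁻¹) := by
    congr 1
    rw [hg', hz, hxn, pow_add]; group
  have d_z : L z = L (t ^ (m + n)) := h.inv _
  have d_xn : L xn = L (t ^ n) := h.inv _
  have d_xn_yn : L (xn⁻¹ * (g * xn)) = L g' := by
    congr 1
    rw [hg', hxn]; group
  have d_y0_z : L (g⁻¹ * z) = L (g⁻¹ * (t ^ (m + n))⁻¹) := rfl
  have d_y0_yn : L (g⁻¹ * (g * xn)) = L (t ^ n) := by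
    rw [inv_mul_cancel_left, d_xn]
  rw [abs_le] at B1 B2
  -- first: d(yn,x0) + d(y0,z) ≤ max(d(y0,yn) + d(x0,z), d(yn,z) + d(x0,y0)) + 2δ
  have F1 := h.four (g * xn) g 1 z
  -- L ((g xn)⁻¹ * 1) + L (g⁻¹ z) ≤ max (L ((g xn)⁻¹ g) + L (1⁻¹ z)) (L (g⁻¹ 1) + L ((g xn)⁻¹ z)) + 2δ
  have e1 : L ((g * xn)⁻¹ * 1) = L (g * xn) := by rw [mul_one, h.inv]
  have e2 : L ((g * xn)⁻¹ * g) = L (t ^ n) := by rw [h.symm, d_y0_yn]
  have e3 : L ((1 : G)⁻¹ * z) = L (t ^ (m + n)) := by rw [inv_one, one_mul, d_z]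
  have e4 : L (g⁻¹ * 1) = L g := by rw [mul_one, h.inv]
  rw [e1, e2, e3, e4, d_yn_z] at F1
  -- second: d(xn,yn) + d(x0,z) ≤ max(d(xn,x0)+d(yn,z), d(x0,yn) + d(xn,z)) + 2δ
  have F2 := h.four xn 1 (g * xn) z
  have e5 : L (xn⁻¹ * 1) = L (t ^ n) := by rw [mul_one, h.inv, d_xn]
  have e6 : L ((1 : G)⁻¹ * (g * xn)) = L (g * xn) := by rw [inv_one, one_mul]
  rw [d_xn_yn, e3, e5, d_yn_z, e6, d_xn_z] at F2
  have G1 : L (g * xn) ≤ L (t ^ n) + 4 * δ := by
    rcases le_total (L (t ^ n) + L (t ^ (m + n))) (L g + L (g'⁻¹ * (t ^ m)⁻¹)) with h5 | h5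
    · rw [max_eq_right h5] at F1
      linarith [B1.1, B1.2, B2.1, B2.2]
    · rw [max_eq_left h5] at F1
      linarith [B1.1, B1.2, B2.1, B2.2]
  rcases le_total (L (t ^ n) + L (g'⁻¹ * (t ^ m)⁻¹)) (L (g * xn) + L (t ^ m)) with h5 | h5
  · rw [max_eq_right h5] at F2
    linarith [B1.1, B1.2, B2.1, B2.2]
  · rw [max_eq_left h5] at F2
    linarith [B1.1, B1.2, B2.1, B2.2]

end HypLen

end Pool.Agent.K4H27.QP
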