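import Mathlib
import Pool.Agent.K4H27.QP.Bergman
import Pool.Agent.K4H27.QP.Hyp

/-!
# The group of the permutations of `ℤ` which are translations near `-∞`
-/

set_option autoImplicit false

namespace Pool.Agent.K4H27.QP

open Equiv

/-- The permutation `σ` fixes all integers less than `z`. -/
def Fix (z : ℤ) (σ : Perm ℤ) : Prop := ∀ n < z, σ n = n

/-- The group of the permutations of `ℤ` which are translations near `-∞`. -/
def Gr : Subgroup (Perm ℤ) where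
  carrier := {σ | ∃ k N : ℤ, ∀ n < N, σ n = n + k}
  mul_mem' := by
    rintro σ τ ⟨k, N, h⟩ ⟨l, M, h'⟩
    refine ⟨l + k, min M (N - l), fun n hn => ?_⟩
    rw [lt_min_iff] at hn
    rw [Perm.mul_apply, h' n hn.1, h _ (by omega)]
    ring
  one_mem' := ⟨0, 0, fun n _ => by simp⟩
  inv_mem' := by
    rintro σ ⟨k, N, h⟩
    refine ⟨-k, N + k, fun n hn => ?_⟩
    rw [Perm.inv_eq_iff_eq, h _ (by omega)]
    ring

/-- the translation by one -/
def t : Gr := ⟨Equiv.addRight 1, 1, 0, fun n _ => by simp⟩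

theorem t_apply (x : ℤ) : (t : Perm ℤ) x = x + 1 := rfl

theorem t_pow_apply (n : ℕ) (x : ℤ) : ((t ^ n : Gr) : Perm ℤ) x = x + n := by
  induction n generalizing x with
  | zero => simp
  | succ n ih =>
    rw [pow_succ, Subgroup.coe_mul, Perm.mul_apply, ih, t_apply]
    push_cast
    ring

theorem t_pow_inv_apply (n : ℕ) (x : ℤ) : (((t ^ n)⁻¹ : Gr) : Perm ℤ) x = x - n := by
  rw [Subgroup.coe_inv, Perm.inv_eq_iff_eq, t_pow_apply]
  ring

theorem conj_apply (n : ℕ) (g : Gr) (x : ℤ) :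
    ((t ^ n * g * (t ^ n)⁻¹ : Gr) : Perm ℤ) x = (g : Perm ℤ) (x - n) + n := by
  rw [Subgroup.coe_mul, Subgroup.coe_mul, Perm.mul_apply, Perm.mul_apply, t_pow_inv_apply,
    t_pow_apply]

theorem conj_inv_apply (n : ℕ) (g : Gr) (x : ℤ) :
    (((t ^ n)⁻¹ * g * t ^ n : Gr) : Perm ℤ) x = (g : Perm ℤ) (x + n) - n := by
  rw [Subgroup.coe_mul, Subgroup.coe_mul, Perm.mul_apply, Perm.mul_apply, t_pow_inv_apply,
    t_pow_apply]

theorem Fix.one (z : ℤ) : Fix z 1 := fun _ _ => rfl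

theorem Fix.mul {z : ℤ} {σ τ : Perm ℤ} (h : Fix z σ) (h' : Fix z τ) : Fix z (σ * τ) := by
  intro n hn
  rw [Perm.mul_apply, h' n hn, h n hn]

theorem Fix.inv {z : ℤ} {σ : Perm ℤ} (h : Fix z σ) : Fix z σ⁻¹ := by
  intro n hn
  rw [Perm.inv_eq_iff_eq, h n hn]

theorem Fix.mono {z z' : ℤ} {σ : Perm ℤ} (h : Fix z σ) (hz : z' ≤ z) : Fix z' σ :=
  fun n hn => h n (hn.trans_le hz)

theorem Fix.pow {z : ℤ} {σ : Perm ℤ} (h : Fix z σ) (n : ℕ) : Fix z (σ ^ n) := by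
  induction n with
  | zero => exact Fix.one z
  | succ n ih => rw [pow_succ]; exact ih.mul h

theorem Fix.conj {z : ℤ} {g : Gr} (h : Fix z g) (n : ℕ) :
    Fix (z + n) (t ^ n * g * (t ^ n)⁻¹ : Gr) := by
  intro x hx
  rw [conj_apply, h _ (by omega)]
  ring

theorem Fix.conj_inv {z : ℤ} {g : Gr} (h : Fix z g) (n : ℕ) :
    Fix (z - n) ((t ^ n)⁻¹ * g * t ^ n : Gr) := by
  intro x hx
  rw [conj_inv_apply, h _ (by omega)]
  ring

theorem Fix.ge {z : ℤ} {σ : Perm ℤ} (h : Fix z σ) {x : ℤ} (hx : z ≤ x) : z ≤ σ x := by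
  by_contra hcon
  push Not at hcon
  have h1 := h _ hcon
  have h2 := σ.injective h1
  omega

/-- the subgroup of the permutations which are the identity near `-∞` -/
def Hs : Subgroup Gr where
  carrier := {g | ∃ z, Fix z g}
  mul_mem' := by
    rintro a b ⟨z, h⟩ ⟨z', h'⟩
    exact ⟨min z z', (h.mono (min_le_left _ _)).mul (h'.mono (min_le_right _ _))⟩
  one_mem' := ⟨0, Fix.one 0⟩
  inv_mem' := by
    rintro a ⟨z, h⟩
    exact ⟨z, h.inv⟩

theorem mem_Hs {g : Gr} : g ∈ Hs ↔ ∃ z, Fix z g := Iff.rfl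

theorem Hs_conj (g : Gr) (hg : g ∈ Hs) (n : ℕ) : t ^ n * g * (t ^ n)⁻¹ ∈ Hs := by
  obtain ⟨z, h⟩ := hg
  exact ⟨_, h.conj n⟩

theorem Hs_conj' (g : Gr) (hg : g ∈ Hs) (n : ℕ) : (t ^ n)⁻¹ * g * t ^ n ∈ Hs := by
  obtain ⟨z, h⟩ := hg
  exact ⟨_, h.conj_inv n⟩

/-- elements of the group -/
def el (z : ℤ) (σ : Perm ℤ) (h : Fix z σ) : Gr := ⟨σ, 0, z, fun n hn => by rw [h n hn, add_zero]⟩

theorem el_mem (z : ℤ) (σ : Perm ℤ) (h : Fix z σ) : el z σ h ∈ Hs := ⟨z, h⟩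

theorem fix_swap {z x y : ℤ} (hx : z ≤ x) (hy : z ≤ y) : Fix z (Equiv.swap x y) := by
  intro n hn
  exact Equiv.swap_apply_of_ne_of_ne (by omega) (by omega)

/-- a transposition as an element of the group -/
def sw (x y : ℤ) : Gr := el (min x y) (Equiv.swap x y) (fix_swap (min_le_left _ _) (min_le_right _ _))

theorem sw_coe (x y : ℤ) : (sw x y : Perm ℤ) = Equiv.swap x y := rfl

theorem sw_mem (x y : ℤ) : sw x y ∈ Hs := el_mem _ _ _

theorem sw_conj (g : Gr) (x y : ℤ) :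
    sw ((g : Perm ℤ) x) ((g : Perm ℤ) y) = g * sw x y * g⁻¹ := by
  apply Subtype.ext
  rw [Subgroup.coe_mul, Subgroup.coe_mul, sw_coe, sw_coe, Subgroup.coe_inv]
  exact Equiv.swap_apply_apply _ _ _

/-- growth of `2 ^ l` -/
theorem exists_l (A B : ℕ) : ∃ l₀, ∀ l, l₀ ≤ l → A + B * l ≤ 2 ^ l := by
  refine ⟨4 * (A + B) + 4, fun l hl => ?_⟩
  have h1 : l / 2 < 2 ^ (l / 2) := Nat.lt_two_pow_self
  have h2 : 2 ^ (l / 2) * 2 ^ (l / 2) ≤ 2 ^ l := by
    rw [← pow_add]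
    exact Nat.pow_le_pow_right (by omega) (by omega)
  have h3 : l ≤ 2 * (l / 2) + 1 := by omega
  set m := l / 2
  have h4 : 2 * (A + B) ≤ m := by omega
  have h5 : 2 ≤ m := by omega
  calc A + B * l ≤ A + B * (2 * m + 1) := by gcongr
    _ ≤ (m + 1) * (m + 1) := by nlinarith
    _ ≤ 2 ^ m * 2 ^ m := Nat.mul_le_mul h1 h1
    _ ≤ 2 ^ l := h2

section Dich

variable {L : Gr → ℝ} {δ : ℝ}

/-- all far conjugates are short -/
def P (L : Gr → ℝ) (C : ℝ) (i : ℕ) (g : Gr) : Prop :=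
  g ∈ Hs ∧ ∀ n, i ≤ n → L (t ^ n * g * (t ^ n)⁻¹) ≤ C

theorem P.mono {C : ℝ} {i j : ℕ} {g : Gr} (h : P L C i g) (hij : i ≤ j) : P L C j g :=
  ⟨h.1, fun n hn => h.2 n (hij.trans hn)⟩

theorem P.inv (hL : HypLen L δ) {C : ℝ} {i : ℕ} {g : Gr} (h : P L C i g) : P L C i g⁻¹ := by
  refine ⟨Hs.inv_mem h.1, fun n hn => ?_⟩
  have e : t ^ n * g⁻¹ * (t ^ n)⁻¹ = (t ^ n * g * (t ^ n)⁻¹)⁻¹ := by group
  rw [e, hL.inv]
  exact h.2 n hn

theorem P.mul (hL : HypLen L δ) {C : ℝ} {n₀ : ℕ}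
    (hn₀ : ∀ n, n₀ ≤ n → ∀ g ∈ Hs, L g ≤ 2 * C → L (t ^ n * g * (t ^ n)⁻¹) ≤ C)
    {i : ℕ} {g g' : Gr} (h : P L C i g) (h' : P L C i g') : P L C (i + n₀) (g * g') := by
  refine ⟨Hs.mul_mem h.1 h'.1, fun n hn => ?_⟩
  obtain ⟨m, rfl⟩ : ∃ m, n = m + i := ⟨n - i, by omega⟩
  have e : t ^ (m + i) * (g * g') * (t ^ (m + i))⁻¹ =
      t ^ m * ((t ^ i * g * (t ^ i)⁻¹) * (t ^ i * g' * (t ^ i)⁻¹)) * (t ^ m)⁻¹ := by
    rw [pow_add]; group
  rw [e]
  apply hn₀ m (by omega)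
  · exact Hs.mul_mem (Hs_conj _ h.1 _) (Hs_conj _ h'.1 _)
  · have h1 := hL.mul (t ^ i * g * (t ^ i)⁻¹) (t ^ i * g' * (t ^ i)⁻¹)
    have h2 := h.2 i le_rfl
    have h3 := h'.2 i le_rfl
    linarith

theorem P.conj {C : ℝ} {i : ℕ} {g : Gr} (h : P L C i g) (j : ℕ) :
    P L C i (t ^ j * g * (t ^ j)⁻¹) := by
  refine ⟨Hs_conj _ h.1 _, fun n hn => ?_⟩
  have e : t ^ n * (t ^ j * g * (t ^ j)⁻¹) * (t ^ n)⁻¹ = t ^ (n + j) * g * (t ^ (n + j))⁻¹ := by
    rw [pow_add]; group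
  rw [e]
  exact h.2 _ (by omega)

theorem P.list (hL : HypLen L δ) {C : ℝ} (hC : 0 ≤ C) {n₀ : ℕ}
    (hn₀ : ∀ n, n₀ ≤ n → ∀ g ∈ Hs, L g ≤ 2 * C → L (t ^ n * g * (t ^ n)⁻¹) ≤ C)
    {i : ℕ} (k : ℕ) : ∀ l : List Gr, l.length ≤ 2 ^ k → (∀ g ∈ l, P L C i g) →
      P L C (i + k * n₀) l.prod := by
  induction k with
  | zero =>
    intro l hl hP
    rcases l with _ | ⟨a, l⟩
    · refine ⟨Hs.one_mem, fun n _ => ?_⟩
      have e : t ^ n * ([] : List Gr).prod * (t ^ n)⁻¹ = 1 := by simp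
      rw [e, hL.one]
      exact hC
    · have : l = [] := by
        rw [List.length_cons] at hl
        exact List.eq_nil_of_length_eq_zero (by omega)
      subst this
      simpa using hP a (by simp)
  | succ k ih =>
    intro l hl hP
    have h1 := ih (l.take (2 ^ k)) (by simp) (fun g hg => hP g (List.mem_of_mem_take hg))
    have h2 := ih (l.drop (2 ^ k)) (by rw [List.length_drop, pow_succ] at *; omega)
      (fun g hg => hP g (List.mem_of_mem_drop hg))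
    have h3 := h1.mul hL hn₀ h2
    rw [← List.prod_append, List.take_append_drop] at h3
    have e : i + (k + 1) * n₀ = i + k * n₀ + n₀ := by ring
    rw [e]
    exact h3

/-- The dichotomy: if short elements of `Hs` move integers near `-∞`, then `Hs` is bounded. -/
theorem dich (hL : HypLen L δ) (RA : ℝ) (hA : ∀ g : Gr, Fix 0 g → L g ≤ RA) (C : ℝ)
    (key : ∀ R, ∃ n₀ : ℕ, ∀ n, n₀ ≤ n → ∀ g ∈ Hs, L g ≤ R → L (t ^ n * g * (t ^ n)⁻¹) ≤ C)
    (hub : ∀ z : ℤ, ∃ q ∈ Hs, L q ≤ C ∧ ∃ x < z, (q : Perm ℤ) x ≠ x) :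
    ∀ g ∈ Hs, L g ≤ C := by
  obtain ⟨n₀, hn₀⟩ := key (2 * C)
  obtain ⟨iA, hiA⟩ := key RA
  obtain ⟨iq, hiq⟩ := key C
  have hC : 0 ≤ C := by
    have := hiA iA le_rfl 1 Hs.one_mem (by
      have := hA 1 (Fix.one 0)
      exact this)
    exact (hL.nonneg _).trans this
  intro g hg
  obtain ⟨z0, hz0⟩ := hg
  -- choose the moved point
  obtain ⟨l₀, hl₀⟩ := exists_l (z0.natAbs + iA + iq + 10 * n₀ + 1) (2 * n₀)
  obtain ⟨q, ⟨zq, hzq⟩, hqC, x, hx, hqx⟩ := hub (-(2 ^ l₀ : ℕ))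
  -- the least moved point
  obtain ⟨m0, hm0, hm0'⟩ : ∃ m0, (q : Perm ℤ) m0 ≠ m0 ∧ ∀ y, (q : Perm ℤ) y ≠ y → m0 ≤ y := by
    refine Int.exists_least_of_bdd (P := fun y => (q : Perm ℤ) y ≠ y) ⟨zq, fun y hy => ?_⟩ ⟨x, hqx⟩
    by_contra hcon
    exact hy (hzq y (by omega))
  have hm0x : m0 ≤ x := hm0' x hqx
  have hpos2 : (0 : ℤ) < ((2 ^ l₀ : ℕ) : ℤ) := by positivity
  obtain ⟨M, hM⟩ : ∃ M : ℕ, m0 = -M := ⟨(-m0).toNat, by omega⟩
  have hM1 : 2 ^ l₀ ≤ M := by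
    have : (2 ^ l₀ : ℕ) < (M : ℤ) := by omega
    exact_mod_cast this.le
  have hMpos : 0 < M := lt_of_lt_of_le (by positivity) hM1
  have hfixq : Fix m0 q := by
    intro y hy
    by_contra hcon
    have := hm0' y hcon
    omega
  -- `k` with `M + 1 ≤ 2 ^ k`
  set l := Nat.log 2 M with hl
  have hlM : 2 ^ l ≤ M := Nat.pow_log_le_self 2 hMpos.ne'
  have hMl : M < 2 ^ (l + 1) := Nat.lt_pow_succ_log_self (by norm_num) M
  have hll : l₀ ≤ l := by
    rw [hl]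
    exact (Nat.le_log_iff_pow_le (by norm_num) hMpos.ne').2 hM1
  have hgrow := hl₀ l hll
  -- doubling
  have hq0 : P L C iq q := ⟨⟨zq, hzq⟩, fun n hn => hiq n hn q ⟨zq, hzq⟩ hqC⟩
  have hdouble : ∀ k : ℕ, ∃ w : Gr, Fix m0 w ∧ P L C (iq + k * n₀) w ∧
      m0 + 2 ^ k ≤ (w : Perm ℤ) m0 := by
    intro k
    induction k with
    | zero =>
      refine ⟨q, hfixq, by simpa using hq0, ?_⟩
      have h1 := hfixq.ge (le_refl m0)
      have h2 := hm0
      simp only [pow_zero]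
      omega
    | succ k ih =>
      obtain ⟨w, hw1, hw2, hw3⟩ := ih
      obtain ⟨d, hd⟩ : ∃ d : ℕ, (w : Perm ℤ) m0 = m0 + d :=
        ⟨((w : Perm ℤ) m0 - m0).toNat, by
          have : (0 : ℤ) < 2 ^ k := by positivity
          omega⟩
      refine ⟨(t ^ d * w * (t ^ d)⁻¹) * w, ?_, ?_, ?_⟩
      · exact ((hw1.conj d).mono (by omega)).mul hw1
      · have := (hw2.conj d).mul hL hn₀ hw2
        have e : iq + (k + 1) * n₀ = iq + k * n₀ + n₀ := by ring
        rw [e]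
        exact this
      · rw [Subgroup.coe_mul, Perm.mul_apply, conj_apply, hd]
        have e : m0 + (d : ℤ) - d = m0 := by ring
        rw [e, hd, pow_succ]
        omega
  obtain ⟨w, hw1, hw2, hw3⟩ := hdouble (l + 1)
  have hw4 : 0 ≤ (w : Perm ℤ) m0 := by
    have : (M : ℤ) < 2 ^ (l + 1) := by exact_mod_cast hMl
    omega
  -- the index
  set i0 := iA + (iq + (l + 1) * n₀) with hi0
  have hPA : ∀ a : Gr, Fix 0 a → P L C i0 a := by
    intro a ha
    exact ⟨⟨0, ha⟩, fun n hn => hiA n (by omega) a ⟨0, ha⟩ (hA a ha)⟩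
  have hPw : P L C i0 w := hw2.mono (by omega)
  -- transpositions, first step
  have T1 : ∀ z : ℤ, m0 ≤ z → z < 0 → ∃ b : ℤ, 0 ≤ b ∧ P L C (i0 + 2 * n₀) (sw z b) := by
    intro z hz hz'
    obtain ⟨j, hj⟩ : ∃ j : ℕ, z = m0 + j := ⟨(z - m0).toNat, by omega⟩
    set wz := t ^ j * w * (t ^ j)⁻¹ with hwz
    have h1 : Fix z wz := by
      have := hw1.conj j
      rw [← hj] at this
      exact this
    have h2 : 0 ≤ (wz : Perm ℤ) z := by
      rw [hwz, conj_apply, hj]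
      have e : m0 + (j : ℤ) - j = m0 := by ring
      rw [e]
      omega
    have h3 : P L C i0 wz := hPw.conj j
    obtain ⟨b, hb⟩ : ∃ b : ℕ, 0 ≤ (wz : Perm ℤ) b := by
      by_contra hcon
      push Not at hcon
      have h4 : (Set.Ico z 0).Infinite := by
        refine Set.infinite_of_injective_forall_mem (f := fun n : ℕ => (wz : Perm ℤ) n) ?_ ?_
        · intro a b hab
          have := (wz : Perm ℤ).injective hab
          exact_mod_cast this
        · intro n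
          exact ⟨h1.ge (by omega), hcon n⟩
      exact h4 (Set.finite_Ico z 0)
    refine ⟨b, by omega, ?_⟩
    have h5 := sw_conj wz z b
    have h6 : sw z b = wz⁻¹ * sw ((wz : Perm ℤ) z) ((wz : Perm ℤ) b) * wz := by
      rw [h5]; group
    rw [h6]
    have h7 : P L C i0 (sw ((wz : Perm ℤ) z) ((wz : Perm ℤ) b)) :=
      hPA _ (by rw [sw_coe]; exact fix_swap h2 hb)
    have h8 := ((h3.inv hL).mul hL hn₀ h7).mul hL hn₀ (h3.mono (by omega))
    exact h8.mono (by omega)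
  -- second step
  have T2 : ∀ z : ℤ, m0 ≤ z → z < 0 → ∀ b : ℤ, 0 ≤ b → P L C (i0 + 4 * n₀) (sw z b) := by
    intro z hz hz' b hb
    obtain ⟨b', hb', hP⟩ := T1 z hz hz'
    have h5 := sw_conj (sw b' b) z b'
    rw [sw_coe, Equiv.swap_apply_left, Equiv.swap_apply_of_ne_of_ne (by omega) (by omega)] at h5
    rw [h5]
    have h7 : P L C (i0 + 2 * n₀) (sw b' b) :=
      (hPA _ (by rw [sw_coe]; exact fix_swap hb' hb)).mono (by omega)
    have h8 := (h7.mul hL hn₀ hP).mul hL hn₀ ((h7.inv hL).mono (by omega))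
    exact h8.mono (by omega)
  -- third step
  have T3 : ∀ x y : ℤ, m0 ≤ x → m0 ≤ y → P L C (i0 + 6 * n₀) (sw x y) := by
    intro x y hx hy
    have hcomm : ∀ x y : ℤ, sw x y = sw y x := by
      intro x y
      apply Subtype.ext
      rw [sw_coe, sw_coe, Equiv.swap_comm]
    rcases lt_or_ge x 0 with hx0 | hx0 <;> rcases lt_or_ge y 0 with hy0 | hy0
    · rcases eq_or_ne x y with rfl | hne
      · have : sw x x = 1 := by
          apply Subtype.ext
          rw [sw_coe, Equiv.swap_self]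
          rfl
        rw [this]
        exact (hPA 1 (Fix.one 0)).mono (by omega)
      · have h5 := sw_conj (sw y 0) x 0
        rw [sw_coe, Equiv.swap_apply_right, Equiv.swap_apply_of_ne_of_ne hne (by omega)] at h5
        rw [h5]
        have h6 := T2 x hx hx0 0 le_rfl
        have h7 := T2 y hy hy0 0 le_rfl
        have h8 := (h7.mul hL hn₀ h6).mul hL hn₀ ((h7.inv hL).mono (by omega))
        exact h8.mono (by omega)
    · exact (T2 x hx hx0 y hy0).mono (by omega)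
    · rw [hcomm]
      exact (T2 y hy hy0 x hx0).mono (by omega)
    · exact (hPA _ (by rw [sw_coe]; exact fix_swap hx0 hy0)).mono (by omega)
  -- lists
  have T4 : ∀ n : ℕ, n ≤ M → ∀ a : Gr, Fix (-n) a → ∃ ls : List Gr, ls.length ≤ n + 1 ∧
      (∀ b ∈ ls, P L C (i0 + 6 * n₀) b) ∧ a = ls.prod := by
    intro n
    induction n with
    | zero =>
      intro _ a ha
      refine ⟨[a], by simp, ?_, by simp⟩
      intro b hb
      rw [List.mem_singleton] at hb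
      subst hb
      exact (hPA b (by simpa using ha)).mono (by omega)
    | succ n ih =>
      intro hn a ha
      set x : ℤ := -((n + 1 : ℕ) : ℤ) with hx
      have hy : x ≤ (a : Perm ℤ) x := ha.ge le_rfl
      have hfix : Fix (-n) ((sw x ((a : Perm ℤ) x) * a : Gr) : Perm ℤ) := by
        intro p hp
        rw [Subgroup.coe_mul, Perm.mul_apply, sw_coe]
        rcases lt_or_ge p x with hpx | hpx
        · rw [ha p hpx]
          exact Equiv.swap_apply_of_ne_of_ne (by omega) (by omega)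
        · have : p = x := by push_cast at hx; omega
          rw [this, Equiv.swap_apply_right]
      obtain ⟨ls, h1, h2, h3⟩ := ih (by omega) _ hfix
      refine ⟨sw x ((a : Perm ℤ) x) :: ls, by simpa using h1, ?_, ?_⟩
      · intro b hb
        rw [List.mem_cons] at hb
        rcases hb with rfl | hb
        · exact T3 _ _ (by omega) (by omega)
        · exact h2 b hb
      · rw [List.prod_cons, ← h3, ← mul_assoc]
        have : sw x ((a : Perm ℤ) x) * sw x ((a : Perm ℤ) x) = 1 := by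
          apply Subtype.ext
          rw [Subgroup.coe_mul, sw_coe, Equiv.swap_mul_self]
          rfl
        rw [this, one_mul]
  -- conclusion
  set I := i0 + 6 * n₀ + (l + 1) * n₀ with hI
  have T5 : ∀ a : Gr, Fix m0 a → P L C I a := by
    intro a ha
    obtain ⟨ls, h1, h2, h3⟩ := T4 M le_rfl a (by rw [← hM]; exact ha)
    rw [h3]
    exact P.list hL hC hn₀ (l + 1) ls (by omega) h2
  have hIle : m0 + I ≤ z0 := by
    have h1 : I ≤ iA + iq + 10 * n₀ + 2 * n₀ * l := by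
      rw [hI, hi0]
      nlinarith
    have h2 : z0.natAbs + (iA + iq + 10 * n₀ + 2 * n₀ * l) ≤ M := by
      have : 2 * n₀ * l = 2 * n₀ * l := rfl
      omega
    omega
  have hfix : Fix m0 ((t ^ I)⁻¹ * g * t ^ I : Gr) := by
    have := hz0.conj_inv I
    exact this.mono (by omega)
  have h := (T5 _ hfix).2 I le_rfl
  have e : t ^ I * ((t ^ I)⁻¹ * g * t ^ I) * (t ^ I)⁻¹ = g := by group
  rw [e] at h
  exact h

end Dich

end Pool.Agent.K4H27.QP
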