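import Mathlib
import Pool.Agent.K4H27.QP.Grp

/-!
# Word lengths, Gromov products, quasi-parabolic structures
-/

set_option autoImplicit false

open Pointwise

namespace Pool.Agent.K4H27.QP

variable {G : Type} [Group G]

/-- word length -/
noncomputable def lenS (S : Set G) (g : G) : ℕ := sInf {n : ℕ | g ∈ (S ∪ S⁻¹) ^ n}

/-- Gromov product -/
noncomputable def gpS (S : Set G) (a b : G) : ℝ :=
  ((lenS S a : ℝ) + (lenS S b : ℝ) - (lenS S (a⁻¹ * b) : ℝ)) / 2

/-- loxodromic elements -/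
def loxS (S : Set G) (g : G) : Prop := ∃ c : ℝ, 0 < c ∧ ∀ n : ℕ, c * (n : ℝ) ≤ (lenS S (g ^ n) : ℝ)

/-- the positive powers converge to the same end -/
def seS (S : Set G) (a b : G) : Prop := ∀ K : ℝ, ∃ N : ℕ, ∀ n m : ℕ, N ≤ n → N ≤ m →
  K ≤ gpS S (a ^ n) (b ^ m)

/-- quasi-parabolic structures -/
def QPS (S : Set G) : Prop :=
  (Subgroup.closure S = ⊤ ∧
   (∃ δ : ℝ, ∀ x y z : G, min (gpS S x y) (gpS S y z) - δ ≤ gpS S x z) ∧
   (∃ g h : G, loxS S g ∧ loxS S h ∧
      ¬ ((seS S g h ∧ seS S g⁻¹ h⁻¹) ∨ (seS S g h⁻¹ ∧ seS S g⁻¹ h))) ∧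
   (∀ g h : G, loxS S g → loxS S h →
      (seS S g h ∨ seS S g h⁻¹ ∨ seS S g⁻¹ h ∨ seS S g⁻¹ h⁻¹)))

theorem exists_pow {S : Set G} (hS : Subgroup.closure S = ⊤) (g : G) :
    ∃ n : ℕ, g ∈ (S ∪ S⁻¹) ^ n := by
  have hg : g ∈ Subgroup.closure S := hS ▸ Subgroup.mem_top g
  induction hg using Subgroup.closure_induction with
  | mem x hx => exact ⟨1, by simpa using Or.inl hx⟩
  | one => exact ⟨0, by simp⟩
  | mul x y _ _ hx hy =>
    obtain ⟨n, hn⟩ := hx
    obtain ⟨m, hm⟩ := hy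
    exact ⟨n + m, by rw [pow_add]; exact Set.mul_mem_mul hn hm⟩
  | inv x _ hx =>
    obtain ⟨n, hn⟩ := hx
    refine ⟨n, ?_⟩
    have h1 : (S ∪ S⁻¹)⁻¹ = S ∪ S⁻¹ := by
      rw [Set.union_inv, inv_inv, Set.union_comm]
    rw [← h1, inv_pow]
    simpa using hn

theorem mem_lenS {S : Set G} (hS : Subgroup.closure S = ⊤) (g : G) :
    g ∈ (S ∪ S⁻¹) ^ (lenS S g) := Nat.sInf_mem (s := {n : ℕ | g ∈ (S ∪ S⁻¹) ^ n}) (exists_pow hS g)

theorem lenS_le {S : Set G} {g : G} {n : ℕ} (h : g ∈ (S ∪ S⁻¹) ^ n) : lenS S g ≤ n :=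
  Nat.sInf_le h

theorem lenS_one (S : Set G) : lenS S 1 = 0 := Nat.le_zero.1 (lenS_le (by simp))

theorem lenS_mem {S : Set G} {s : G} (h : s ∈ S) : lenS S s ≤ 1 :=
  lenS_le (by simpa using Or.inl h)

theorem isLen {S : Set G} (hS : Subgroup.closure S = ⊤) : IsLen (lenS S) := by
  constructor
  · intro a b
    apply lenS_le
    rw [pow_add]
    exact Set.mul_mem_mul (mem_lenS hS a) (mem_lenS hS b)
  · have h1 : (S ∪ S⁻¹)⁻¹ = S ∪ S⁻¹ := by
      rw [Set.union_inv, inv_inv, Set.union_comm]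
    have h2 : ∀ a : G, lenS S a⁻¹ ≤ lenS S a := by
      intro a
      apply lenS_le
      rw [← h1, inv_pow]
      simpa using mem_lenS hS a
    intro a
    refine le_antisymm (h2 a) ?_
    have := h2 a⁻¹
    rwa [inv_inv] at this

/-- lower bounds for the word length -/
theorem le_lenS {S : Set G} (hS : Subgroup.closure S = ⊤) (f : G → ℤ) (h1 : f 1 ≤ 0)
    (h2 : ∀ g s, s ∈ S ∪ S⁻¹ → f (g * s) ≤ f g + 1) (g : G) : f g ≤ lenS S g := by
  have key : ∀ n : ℕ, ∀ g ∈ (S ∪ S⁻¹) ^ n, f g ≤ n := by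
    intro n
    induction n with
    | zero =>
      intro g hg
      rw [pow_zero, Set.mem_one] at hg
      subst hg
      simpa using h1
    | succ n ih =>
      intro g hg
      rw [pow_succ, Set.mem_mul] at hg
      obtain ⟨a, ha, b, hb, rfl⟩ := hg
      have := h2 a b hb
      have := ih a ha
      push_cast
      linarith
  exact key _ g (mem_lenS hS g)

theorem hypLen {S : Set G} (hS : Subgroup.closure S = ⊤) {δ : ℝ}
    (hδ : ∀ x y z : G, min (gpS S x y) (gpS S y z) - δ ≤ gpS S x z) :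
    HypLen (fun g => (lenS S g : ℝ)) δ := by
  have hl := isLen hS
  refine ⟨by simp [lenS_one], fun a b => by exact_mod_cast hl.mul a b,
    fun a => by exact_mod_cast hl.inv a, fun x y z w => ?_⟩
  have h := hδ (w⁻¹ * x) (w⁻¹ * y) (w⁻¹ * z)
  unfold gpS at h
  have e1 : (w⁻¹ * x)⁻¹ * (w⁻¹ * y) = x⁻¹ * y := by group
  have e2 : (w⁻¹ * y)⁻¹ * (w⁻¹ * z) = y⁻¹ * z := by group
  have e3 : (w⁻¹ * x)⁻¹ * (w⁻¹ * z) = x⁻¹ * z := by group
  have e4 : lenS S (x⁻¹ * w) = lenS S (w⁻¹ * x) := by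
    rw [← hl.inv (w⁻¹ * x), mul_inv_rev, inv_inv]
  have e5 : lenS S (y⁻¹ * w) = lenS S (w⁻¹ * y) := by
    rw [← hl.inv (w⁻¹ * y), mul_inv_rev, inv_inv]
  have e6 : lenS S (z⁻¹ * w) = lenS S (w⁻¹ * z) := by
    rw [← hl.inv (w⁻¹ * z), mul_inv_rev, inv_inv]
  rw [e1, e2, e3] at h
  rw [e4, e5, e6]
  set a : ℝ := (lenS S (w⁻¹ * x) : ℝ)
  set b : ℝ := (lenS S (w⁻¹ * y) : ℝ)
  set c : ℝ := (lenS S (w⁻¹ * z) : ℝ)
  set p : ℝ := (lenS S (x⁻¹ * y) : ℝ)
  set q : ℝ := (lenS S (y⁻¹ * z) : ℝ)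
  set r : ℝ := (lenS S (x⁻¹ * z) : ℝ)
  rcases le_total ((a + b - p) / 2) ((b + c - q) / 2) with h1 | h1
  · rw [min_eq_left h1] at h
    have := le_max_left (p + c) (q + a)
    linarith
  · rw [min_eq_right h1] at h
    have := le_max_right (p + c) (q + a)
    linarith

/-- a length function on `Gr` is bounded on the permutations fixing all negative integers -/
theorem bounded_A {f : Gr → ℕ} (hf : IsLen f) : ∃ C, ∀ g : Gr, Fix 0 g → f g ≤ C := by
  classical
  let e : ℕ ≃ {n : ℤ // 0 ≤ n} :=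
    { toFun := fun n => ⟨n, by omega⟩
      invFun := fun n => n.1.toNat
      left_inv := fun n => by simp
      right_inv := fun n => by
        apply Subtype.ext
        simp [n.2] }
  have hfix : ∀ s : Equiv.Perm {n : ℤ // 0 ≤ n}, Fix 0 (Equiv.Perm.ofSubtype s) := by
    intro s n hn
    exact Equiv.Perm.ofSubtype_apply_of_not_mem _ (by omega)
  let F : Equiv.Perm ℕ → ℕ := fun s => f (el 0 (Equiv.Perm.ofSubtype (e.permCongr s)) (hfix _))
  have hF : IsLen F := by
    constructor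
    · intro a b
      have h1 : el 0 (Equiv.Perm.ofSubtype (e.permCongr (a * b))) (hfix _) =
          el 0 (Equiv.Perm.ofSubtype (e.permCongr a)) (hfix _) *
          el 0 (Equiv.Perm.ofSubtype (e.permCongr b)) (hfix _) := by
        apply Subtype.ext
        show Equiv.Perm.ofSubtype (e.permCongr (a * b)) =
          Equiv.Perm.ofSubtype (e.permCongr a) * Equiv.Perm.ofSubtype (e.permCongr b)
        rw [← map_mul]
        congr 1
      show f _ ≤ _
      rw [h1]
      exact hf.mul _ _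
    · intro a
      have h1 : el 0 (Equiv.Perm.ofSubtype (e.permCongr a⁻¹)) (hfix _) =
          (el 0 (Equiv.Perm.ofSubtype (e.permCongr a)) (hfix _))⁻¹ := by
        apply Subtype.ext
        show Equiv.Perm.ofSubtype (e.permCongr a⁻¹) = (Equiv.Perm.ofSubtype (e.permCongr a))⁻¹
        rw [← map_inv]
        congr 1
      show f _ = _
      rw [h1]
      exact hf.inv _
  obtain ⟨C, hC⟩ := bergman hF
  refine ⟨C, fun g hg => ?_⟩
  have hp : ∀ x : ℤ, 0 ≤ (g : Equiv.Perm ℤ) x ↔ 0 ≤ x := by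
    intro x
    constructor
    · intro h
      by_contra hcon
      push Not at hcon
      rw [hg x hcon] at h
      omega
    · intro h
      exact hg.ge h
  have h := hC (e.symm.permCongr ((g : Equiv.Perm ℤ).subtypePerm hp))
  have h1 : el 0 (Equiv.Perm.ofSubtype (e.permCongr
      (e.symm.permCongr ((g : Equiv.Perm ℤ).subtypePerm hp)))) (hfix _) = g := by
    apply Subtype.ext
    show Equiv.Perm.ofSubtype (e.permCongr
      (e.symm.permCongr ((g : Equiv.Perm ℤ).subtypePerm hp))) = (g : Equiv.Perm ℤ)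
    have h2 : e.permCongr (e.symm.permCongr ((g : Equiv.Perm ℤ).subtypePerm hp)) =
        (g : Equiv.Perm ℤ).subtypePerm hp := by
      ext x
      simp [Equiv.permCongr_apply]
    rw [h2]
    exact Equiv.Perm.ofSubtype_subtypePerm (f := (g : Equiv.Perm ℤ)) (p := fun n : ℤ => 0 ≤ n) hp
      (by
        intro x hx
        by_contra hcon
        exact hx (hg x (by omega)))
  have h3 : F (e.symm.permCongr ((g : Equiv.Perm ℤ).subtypePerm hp)) = f g := by
    show f _ = f g
    rw [h1]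
  rw [h3] at h
  exact h

/-! ### the translation length at `-∞` -/

/-- `g n = n + kk g` near `-∞` -/
noncomputable def kk (g : Gr) : ℤ := g.2.choose

theorem kk_spec (g : Gr) : ∃ N : ℤ, ∀ n < N, (g : Equiv.Perm ℤ) n = n + kk g := g.2.choose_spec

theorem kk_eq {g : Gr} {k N : ℤ} (h : ∀ n < N, (g : Equiv.Perm ℤ) n = n + k) : kk g = k := by
  obtain ⟨M, hM⟩ := kk_spec g
  have h1 := h (min M N - 1) (by omega)
  have h2 := hM (min M N - 1) (by omega)
  omega

theorem kk_one : kk 1 = 0 := kk_eq (N := 0) (fun _ _ => by simp)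

theorem kk_t : kk t = 1 := kk_eq (N := 0) (fun _ _ => rfl)

theorem kk_mul (g h : Gr) : kk (g * h) = kk g + kk h := by
  obtain ⟨M, hM⟩ := kk_spec g
  obtain ⟨N, hN⟩ := kk_spec h
  apply kk_eq (N := min N (M - kk h))
  intro n hn
  rw [Subgroup.coe_mul, Equiv.Perm.mul_apply, hN n (by omega), hM _ (by omega)]
  ring

theorem kk_inv (g : Gr) : kk g⁻¹ = - kk g := by
  have := kk_mul g g⁻¹
  rw [mul_inv_cancel, kk_one] at this
  omega

theorem kk_pow (g : Gr) (n : ℕ) : kk (g ^ n) = n * kk g := by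
  induction n with
  | zero => simp [kk_one]
  | succ n ih =>
    rw [pow_succ, kk_mul, ih]
    push_cast
    ring

theorem mem_Hs_iff {g : Gr} : g ∈ Hs ↔ kk g = 0 := by
  constructor
  · rintro ⟨z, hz⟩
    exact kk_eq (N := z) (fun n hn => by rw [hz n hn, add_zero])
  · intro h
    obtain ⟨N, hN⟩ := kk_spec g
    exact ⟨N, fun n hn => by rw [hN n hn, h, add_zero]⟩

/-- the set defining `cc` -/
def ccSet (x y : Gr) : Set ℤ := {c : ℤ | c ≤ kk x ∧ c ≤ kk y ∧
  ∀ p < c, (x : Equiv.Perm ℤ) (p - kk x) = (y : Equiv.Perm ℤ) (p - kk y)}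

/-- the level at which the rays of `x` and `y` meet -/
noncomputable def cc (x y : Gr) : ℤ := sSup (ccSet x y)

theorem ccSet_bdd (x y : Gr) : BddAbove (ccSet x y) := ⟨kk x, fun _ hc => hc.1⟩

theorem cc_mem (x y : Gr) : cc x y ∈ ccSet x y := by
  apply Int.csSup_mem _ (ccSet_bdd x y)
  obtain ⟨M, hM⟩ := kk_spec x
  obtain ⟨N, hN⟩ := kk_spec y
  refine ⟨min (min (kk x) (kk y)) (min (M + kk x) (N + kk y)), by omega, by omega, fun p hp => ?_⟩
  rw [hM _ (by omega), hN _ (by omega)]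
  ring

theorem le_cc {x y : Gr} {c : ℤ} (h : c ∈ ccSet x y) : c ≤ cc x y := le_csSup (ccSet_bdd x y) h

theorem cc_comm (x y : Gr) : cc x y = cc y x := by
  have h : ∀ x y : Gr, cc x y ≤ cc y x := by
    intro x y
    have h := cc_mem x y
    exact le_cc ⟨h.2.1, h.1, fun p hp => (h.2.2 p hp).symm⟩
  exact le_antisymm (h x y) (h y x)

theorem cc_le_left (x y : Gr) : cc x y ≤ kk x := (cc_mem x y).1

theorem cc_le_right (x y : Gr) : cc x y ≤ kk y := (cc_mem x y).2.1

theorem cc_ultra (x y z : Gr) : min (cc x y) (cc y z) ≤ cc x z := by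
  have h1 := cc_mem x y
  have h2 := cc_mem y z
  exact le_cc ⟨(min_le_left _ _).trans h1.1, (min_le_right _ _).trans h2.2.1, fun p hp =>
    (h1.2.2 p (hp.trans_le (min_le_left _ _))).trans (h2.2.2 p (hp.trans_le (min_le_right _ _)))⟩

theorem cc_self (x : Gr) : cc x x = kk x :=
  le_antisymm (cc_le_left x x) (le_cc ⟨le_rfl, le_rfl, fun _ _ => rfl⟩)

theorem cc_mul_left (g x y : Gr) : cc (g * x) (g * y) = kk g + cc x y := by
  apply le_antisymm
  · have h := cc_mem (g * x) (g * y)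
    have h1 : cc (g * x) (g * y) - kk g ∈ ccSet x y := by
      refine ⟨?_, ?_, fun p hp => ?_⟩
      · have := h.1; rw [kk_mul] at this; omega
      · have := h.2.1; rw [kk_mul] at this; omega
      · have h2 := h.2.2 (p + kk g) (by omega)
        rw [kk_mul, kk_mul, Subgroup.coe_mul, Subgroup.coe_mul, Equiv.Perm.mul_apply,
          Equiv.Perm.mul_apply] at h2
        have h3 := (g : Equiv.Perm ℤ).injective h2
        have e1 : p + kk g - (kk g + kk x) = p - kk x := by ring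
        have e2 : p + kk g - (kk g + kk y) = p - kk y := by ring
        rw [e1, e2] at h3
        exact h3
    have := le_cc h1
    omega
  · have h := cc_mem x y
    apply le_cc
    refine ⟨?_, ?_, fun p hp => ?_⟩
    · rw [kk_mul]; have := h.1; omega
    · rw [kk_mul]; have := h.2.1; omega
    · rw [kk_mul, kk_mul, Subgroup.coe_mul, Subgroup.coe_mul, Equiv.Perm.mul_apply,
          Equiv.Perm.mul_apply]
      have h2 := h.2.2 (p - kk g) (by omega)
      have e1 : p - (kk g + kk x) = p - kk g - kk x := by ring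
      have e2 : p - (kk g + kk y) = p - kk g - kk y := by ring
      rw [e1, e2, h2]

/-- distances in the tree -/
noncomputable def dd (x y : Gr) : ℤ := kk x + kk y - 2 * cc x y

theorem dd_mul_left (g x y : Gr) : dd (g * x) (g * y) = dd x y := by
  unfold dd
  rw [cc_mul_left, kk_mul, kk_mul]
  ring

theorem dd_triangle (x y z : Gr) : dd x z ≤ dd x y + dd y z := by
  unfold dd
  have h1 := cc_ultra x y z
  have h2 := cc_le_right x y
  have h3 := cc_le_left y z
  omega

theorem dd_comm (x y : Gr) : dd x y = dd y x := by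
  unfold dd
  rw [cc_comm x y]
  ring

theorem dd_self (x : Gr) : dd x x = 0 := by
  unfold dd
  rw [cc_self]
  ring

end Pool.Agent.K4H27.QP
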