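import Mathlib
import Pool.Agent.K4H27.QP.Len

/-!
# The group `Gr` has exactly one quasi-parabolic structure
-/

set_option autoImplicit false

open Pointwise

namespace Pool.Agent.K4H27.QP

/-- the generating set -/
def XX : Set Gr := {g | Fix 0 g} ∪ {t}

theorem kk_of_fix {z : ℤ} {g : Gr} (h : Fix z g) : kk g = 0 := mem_Hs_iff.1 ⟨z, h⟩

/-- writing elements as `t⁻ⁱ a tʲ` -/
theorem decomp (g : Gr) : ∃ (i j : ℕ) (a : Gr), Fix 0 a ∧ g = (t ^ i)⁻¹ * a * t ^ j ∧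
    (i : ℤ) = - cc 1 g ∧ (j : ℤ) = kk g - cc 1 g := by
  have h := cc_mem 1 g
  obtain ⟨i, hi⟩ : ∃ i : ℕ, (i : ℤ) = - cc 1 g := ⟨(- cc 1 g).toNat, by
    have := h.1; rw [kk_one] at this; omega⟩
  obtain ⟨j, hj⟩ : ∃ j : ℕ, (j : ℤ) = kk g - cc 1 g := ⟨(kk g - cc 1 g).toNat, by
    have := h.2.1; omega⟩
  refine ⟨i, j, t ^ i * g * (t ^ j)⁻¹, ?_, by group, hi, hj⟩
  intro n hn
  rw [Subgroup.coe_mul, Subgroup.coe_mul, Equiv.Perm.mul_apply, Equiv.Perm.mul_apply,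
    t_pow_inv_apply, t_pow_apply]
  have h1 := h.2.2 (n + cc 1 g) (by omega)
  rw [kk_one, Subgroup.coe_one, Equiv.Perm.one_apply] at h1
  have e : n + cc 1 g - kk g = n - j := by omega
  rw [e] at h1
  omega

theorem closure_XX : Subgroup.closure XX = ⊤ := by
  rw [eq_top_iff]
  intro g _
  obtain ⟨i, j, a, ha, rfl, -, -⟩ := decomp g
  have ht : t ∈ Subgroup.closure XX := Subgroup.subset_closure (Or.inr rfl)
  have ha' : a ∈ Subgroup.closure XX := Subgroup.subset_closure (Or.inl ha)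
  exact mul_mem (mul_mem (inv_mem (pow_mem ht i)) ha') (pow_mem ht j)

theorem len_X_le (g : Gr) : (lenS XX g : ℤ) ≤ dd 1 g + 1 := by
  obtain ⟨i, j, a, ha, hg, hi, hj⟩ := decomp g
  have hl := isLen closure_XX
  have h1 : lenS XX t ≤ 1 := lenS_mem (Or.inr rfl)
  have h2 : lenS XX a ≤ 1 := lenS_mem (Or.inl ha)
  have h3 := hl.pow t i
  have h4 := hl.pow t j
  rw [lenS_one] at h3 h4
  have h5 : i * lenS XX t ≤ i * 1 := Nat.mul_le_mul_left i h1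
  have h6 : j * lenS XX t ≤ j * 1 := Nat.mul_le_mul_left j h1
  have h7 := hl.mul ((t ^ i)⁻¹ * a) (t ^ j)
  have h8 := hl.mul (t ^ i)⁻¹ a
  have h9 := hl.inv (t ^ i)
  rw [← hg] at h7
  have h10 : dd 1 g = i + j := by
    unfold dd
    rw [kk_one]
    omega
  rw [h10]
  have : lenS XX g ≤ i + j + 1 := by omega
  exact_mod_cast this

theorem cc_one_nonpos (g : Gr) : cc 1 g ≤ 0 := by
  have := cc_le_left 1 g
  rwa [kk_one] at this

theorem dd_nonneg (x y : Gr) : 0 ≤ dd x y := by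
  unfold dd
  have := cc_le_left x y
  have := cc_le_right x y
  omega

theorem dd_X {s : Gr} (hs : s ∈ XX ∪ XX⁻¹) : dd 1 s ≤ 1 := by
  have key : ∀ s ∈ XX, dd 1 s ≤ 1 := by
    rintro s (hs | hs)
    · have h1 : (0 : ℤ) ∈ ccSet 1 s := by
        refine ⟨by rw [kk_one], by rw [kk_of_fix hs], fun p hp => ?_⟩
        rw [kk_one, kk_of_fix hs, Subgroup.coe_one, Equiv.Perm.one_apply, sub_zero]
        exact (hs p hp).symm
      have h2 := le_cc h1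
      unfold dd
      rw [kk_one, kk_of_fix hs]
      omega
    · rw [Set.mem_singleton_iff] at hs
      subst hs
      have h1 : (0 : ℤ) ∈ ccSet 1 t := by
        refine ⟨by rw [kk_one], by rw [kk_t]; omega, fun p hp => ?_⟩
        rw [kk_one, kk_t, Subgroup.coe_one, Equiv.Perm.one_apply, t_apply]
        ring
      have h2 := le_cc h1
      unfold dd
      rw [kk_one, kk_t]
      omega
  rcases hs with hs | hs
  · exact key s hs
  · have h1 := key s⁻¹ hs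
    have h2 := dd_mul_left s 1 s⁻¹
    rw [mul_one, mul_inv_cancel] at h2
    rw [dd_comm, h2]
    exact h1

theorem le_len_X (g : Gr) : dd 1 g ≤ lenS XX g := by
  apply le_lenS closure_XX (fun g => dd 1 g)
  · show dd 1 1 ≤ 0
    rw [dd_self]
  · intro g s hs
    show dd 1 (g * s) ≤ dd 1 g + 1
    have h1 := dd_triangle 1 g (g * s)
    have h2 := dd_mul_left g 1 s
    rw [mul_one] at h2
    have h3 := dd_X hs
    omega

/-- the exact Gromov products in the tree -/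
theorem gp_bounds (x y : Gr) :
    ((cc x y - cc 1 x - cc 1 y : ℤ) : ℝ) - 1 / 2 ≤ gpS XX x y ∧
    gpS XX x y ≤ ((cc x y - cc 1 x - cc 1 y : ℤ) : ℝ) + 1 := by
  have h1 := len_X_le x
  have h2 := len_X_le y
  have h3 := len_X_le (x⁻¹ * y)
  have h4 := le_len_X x
  have h5 := le_len_X y
  have h6 := le_len_X (x⁻¹ * y)
  have h7 := dd_mul_left x 1 (x⁻¹ * y)
  rw [mul_one, mul_inv_cancel_left] at h7
  have e : 2 * (cc x y - cc 1 x - cc 1 y) = dd 1 x + dd 1 y - dd x y := by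
    unfold dd
    rw [kk_one]
    ring
  have e' : 2 * ((cc x y - cc 1 x - cc 1 y : ℤ) : ℝ) = (dd 1 x : ℝ) + dd 1 y - dd x y := by
    exact_mod_cast e
  rw [← h7] at h3 h6
  have h1' : (lenS XX x : ℝ) ≤ dd 1 x + 1 := by exact_mod_cast h1
  have h2' : (lenS XX y : ℝ) ≤ dd 1 y + 1 := by exact_mod_cast h2
  have h3' : (lenS XX (x⁻¹ * y) : ℝ) ≤ dd x y + 1 := by exact_mod_cast h3
  have h4' : (dd 1 x : ℝ) ≤ lenS XX x := by exact_mod_cast h4
  have h5' : (dd 1 y : ℝ) ≤ lenS XX y := by exact_mod_cast h5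
  have h6' : (dd x y : ℝ) ≤ lenS XX (x⁻¹ * y) := by exact_mod_cast h6
  unfold gpS
  constructor <;> linarith

theorem hyp_X (x y z : Gr) : min (gpS XX x y) (gpS XX y z) - 3 / 2 ≤ gpS XX x z := by
  have h1 := (gp_bounds x y).2
  have h2 := (gp_bounds y z).2
  have h3 := (gp_bounds x z).1
  have key : min (cc x y - cc 1 x - cc 1 y) (cc y z - cc 1 y - cc 1 z) ≤
      cc x z - cc 1 x - cc 1 z := by
    have u1 := cc_ultra x y z
    have u2 := cc_ultra x 1 z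
    have u3 := cc_ultra 1 x y
    have u4 := cc_ultra 1 z y
    have c1 := cc_comm x 1
    have c2 := cc_comm z y
    omega
  have key' : min (((cc x y - cc 1 x - cc 1 y : ℤ) : ℝ)) ((cc y z - cc 1 y - cc 1 z : ℤ) : ℝ) ≤
      ((cc x z - cc 1 x - cc 1 z : ℤ) : ℝ) := by
    exact_mod_cast key
  rcases min_le_iff.1 key' with h | h
  · have := min_le_left (gpS XX x y) (gpS XX y z)
    linarith
  · have := min_le_right (gpS XX x y) (gpS XX y z)
    linarith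

/-- `|kk g|` is at most the length -/
theorem abs_kk_le (g : Gr) : |kk g| ≤ lenS XX g := by
  have h1 := le_len_X g
  unfold dd at h1
  rw [kk_one] at h1
  have h2 := cc_one_nonpos g
  have h3 := cc_le_right 1 g
  rw [abs_le]
  omega

theorem lox_X_of {g : Gr} (h : kk g ≠ 0) : loxS XX g := by
  refine ⟨1, one_pos, fun n => ?_⟩
  have h1 := abs_kk_le (g ^ n)
  rw [kk_pow, abs_mul, Nat.abs_cast] at h1
  have h2 : (1 : ℤ) ≤ |kk g| := Int.one_le_abs h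
  have h3 : (n : ℤ) ≤ lenS XX (g ^ n) := by nlinarith
  rw [one_mul]
  exact_mod_cast h3

/-- loxodromic elements are not in `Hs`, for every generating set -/
theorem kk_of_lox {S : Set Gr} (hS : Subgroup.closure S = ⊤) {g : Gr} (h : loxS S g) :
    kk g ≠ 0 := by
  intro hk
  rw [← mem_Hs_iff] at hk
  obtain ⟨z, hz⟩ := hk
  obtain ⟨C, hC⟩ := bounded_A (isLen hS)
  obtain ⟨c, hc, hcn⟩ := h
  obtain ⟨j, hj⟩ : ∃ j : ℕ, -(j : ℤ) ≤ z := ⟨z.natAbs, by omega⟩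
  have hl := isLen hS
  have bd : ∀ n : ℕ, lenS S (g ^ n) ≤ C + 2 * lenS S (t ^ j) := by
    intro n
    have h1 : Fix 0 (t ^ j * g ^ n * (t ^ j)⁻¹ : Gr) := by
      have : Fix z ((g ^ n : Gr) : Equiv.Perm ℤ) := by
        rw [Subgroup.coe_pow]
        exact hz.pow n
      exact (this.conj j).mono (by omega)
    have h2 := hC _ h1
    have h3 := hl.conj (t ^ j)⁻¹ (t ^ j * g ^ n * (t ^ j)⁻¹)
    rw [hl.inv, inv_inv] at h3
    have e : (t ^ j)⁻¹ * (t ^ j * g ^ n * (t ^ j)⁻¹) * t ^ j = g ^ n := by group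
    rw [e] at h3
    omega
  obtain ⟨n, hn⟩ := exists_nat_gt (((C + 2 * lenS S (t ^ j) : ℕ) : ℝ) / c)
  rw [div_lt_iff₀ hc] at hn
  have h1 := hcn n
  have h2 : (lenS S (g ^ n) : ℝ) ≤ ((C + 2 * lenS S (t ^ j) : ℕ) : ℝ) := by
    exact_mod_cast bd n
  linarith

theorem se_X {g h : Gr} (hg : kk g < 0) (hh : kk h < 0) : seS XX g h := by
  intro K
  obtain ⟨N, hN⟩ := exists_nat_ge (K + 1)
  refine ⟨N, fun n m hn hm => ?_⟩
  have h1 := (gp_bounds (g ^ n) (h ^ m)).1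
  have h2 := cc_ultra (g ^ n) 1 (h ^ m)
  have h3 := cc_le_right 1 (g ^ n)
  have h4 := cc_le_right 1 (h ^ m)
  have h5 := cc_comm (g ^ n) 1
  rw [kk_pow] at h3 h4
  have h6 : (n : ℤ) * kk g ≤ -n := by nlinarith
  have h7 : (m : ℤ) * kk h ≤ -m := by nlinarith
  have h8 : (N : ℤ) ≤ cc (g ^ n) (h ^ m) - cc 1 (g ^ n) - cc 1 (h ^ m) := by
    have : (N : ℤ) ≤ n := by exact_mod_cast hn
    have : (N : ℤ) ≤ m := by exact_mod_cast hm
    omega
  have h9 : (N : ℝ) ≤ ((cc (g ^ n) (h ^ m) - cc 1 (g ^ n) - cc 1 (h ^ m) : ℤ) : ℝ) := by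
    exact_mod_cast h8
  linarith

/-- the second loxodromic element -/
def t' : Gr := sw 0 1 * t * (sw 0 1)⁻¹

theorem kk_t' : kk t' = 1 := by
  unfold t'
  rw [kk_mul, kk_mul, kk_inv, kk_t]
  ring

theorem sw01_neg {p : ℤ} (hp : p < 0) : ((sw 0 1 : Gr) : Equiv.Perm ℤ) p = p := by
  rw [sw_coe]
  exact Equiv.swap_apply_of_ne_of_ne (by omega) (by omega)

theorem sw01_inv : (sw 0 1 : Gr)⁻¹ = sw 0 1 := by
  rw [inv_eq_iff_mul_eq_one]
  apply Subtype.ext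
  rw [Subgroup.coe_mul, sw_coe, Equiv.swap_mul_self]
  rfl

theorem t'_pow (n : ℕ) : t' ^ n = sw 0 1 * t ^ n * (sw 0 1)⁻¹ := by
  unfold t'
  rw [conj_pow]

theorem t'_pow_apply (n : ℕ) (x : ℤ) : ((t' ^ n : Gr) : Equiv.Perm ℤ) x =
    ((sw 0 1 : Gr) : Equiv.Perm ℤ) (((sw 0 1 : Gr) : Equiv.Perm ℤ) x + n) := by
  rw [t'_pow, sw01_inv, Subgroup.coe_mul, Subgroup.coe_mul, Equiv.Perm.mul_apply,
    Equiv.Perm.mul_apply, t_pow_apply]

theorem t'_inv_pow_apply (n : ℕ) (x : ℤ) : ((t'⁻¹ ^ n : Gr) : Equiv.Perm ℤ) x =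
    ((sw 0 1 : Gr) : Equiv.Perm ℤ) (((sw 0 1 : Gr) : Equiv.Perm ℤ) x - n) := by
  have e : t'⁻¹ ^ n = sw 0 1 * (t ^ n)⁻¹ * (sw 0 1)⁻¹ := by
    rw [inv_pow, t'_pow]
    group
  rw [e, sw01_inv, Subgroup.coe_mul, Subgroup.coe_mul, Equiv.Perm.mul_apply,
    Equiv.Perm.mul_apply, t_pow_inv_apply]

theorem not_se_1 : ¬ seS XX t t' := by
  intro h
  obtain ⟨N, hN⟩ := h 3
  have h1 := hN (N + 1) (N + 1) (by omega) (by omega)
  have h2 := (gp_bounds (t ^ (N + 1)) (t' ^ (N + 1))).2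
  have c1 : cc (t ^ (N + 1)) (t' ^ (N + 1)) ≤ 0 := by
    by_contra hcon
    push Not at hcon
    have h3 := (cc_mem (t ^ (N + 1)) (t' ^ (N + 1))).2.2 0 hcon
    rw [kk_pow, kk_pow, kk_t, kk_t', t'_pow_apply, t_pow_apply,
      sw01_neg (p := 0 - ((N + 1 : ℕ) : ℤ) * 1) (by push_cast; omega)] at h3
    have e : (0 : ℤ) - ((N + 1 : ℕ) : ℤ) * 1 + ((N + 1 : ℕ) : ℤ) = 0 := by ring
    rw [e, sw_coe, Equiv.swap_apply_left] at h3
    omega
  have c2 : 0 ≤ cc 1 (t ^ (N + 1)) := by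
    apply le_cc
    refine ⟨by rw [kk_one], by rw [kk_pow, kk_t]; positivity, fun p _ => ?_⟩
    rw [kk_one, kk_pow, kk_t, t_pow_apply, Subgroup.coe_one, Equiv.Perm.one_apply]
    ring
  have c3 : 0 ≤ cc 1 (t' ^ (N + 1)) := by
    apply le_cc
    refine ⟨by rw [kk_one], by rw [kk_pow, kk_t']; positivity, fun p hp => ?_⟩
    rw [kk_one, kk_pow, kk_t', t'_pow_apply,
      sw01_neg (p := p - ((N + 1 : ℕ) : ℤ) * 1) (by push_cast; omega),
      sw01_neg (p := p - ((N + 1 : ℕ) : ℤ) * 1 + ((N + 1 : ℕ) : ℤ)) (by push_cast; omega),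
      Subgroup.coe_one, Equiv.Perm.one_apply]
    ring
  have h4 : ((cc (t ^ (N + 1)) (t' ^ (N + 1)) - cc 1 (t ^ (N + 1)) - cc 1 (t' ^ (N + 1)) : ℤ) : ℝ) ≤
      ((0 : ℤ) : ℝ) := by
    exact_mod_cast (by omega : cc (t ^ (N + 1)) (t' ^ (N + 1)) - cc 1 (t ^ (N + 1)) -
      cc 1 (t' ^ (N + 1)) ≤ 0)
  rw [Int.cast_zero] at h4
  linarith

theorem not_se_2 : ¬ seS XX t t'⁻¹ := by
  intro h
  obtain ⟨N, hN⟩ := h 3
  have h1 := hN (N + 1) (N + 1) (by omega) (by omega)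
  have h2 := (gp_bounds (t ^ (N + 1)) (t'⁻¹ ^ (N + 1))).2
  have k1 : kk (t'⁻¹ ^ (N + 1)) = -((N + 1 : ℕ) : ℤ) := by
    rw [kk_pow, kk_inv, kk_t']
    ring
  have c1 : cc (t ^ (N + 1)) (t'⁻¹ ^ (N + 1)) ≤ -((N + 1 : ℕ) : ℤ) := by
    have := cc_le_right (t ^ (N + 1)) (t'⁻¹ ^ (N + 1))
    rwa [k1] at this
  have c2 : 0 ≤ cc 1 (t ^ (N + 1)) := by
    apply le_cc
    refine ⟨by rw [kk_one], by rw [kk_pow, kk_t]; positivity, fun p _ => ?_⟩
    rw [kk_one, kk_pow, kk_t, t_pow_apply, Subgroup.coe_one, Equiv.Perm.one_apply]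
    ring
  have c3 : -((N + 1 : ℕ) : ℤ) ≤ cc 1 (t'⁻¹ ^ (N + 1)) := by
    apply le_cc
    refine ⟨by rw [kk_one]; omega, by rw [k1], fun p hp => ?_⟩
    rw [k1, kk_one]
    rw [t'_inv_pow_apply,
      sw01_neg (p := p - -((N + 1 : ℕ) : ℤ)) (by push_cast at hp ⊢; omega),
      sw01_neg (p := p - -((N + 1 : ℕ) : ℤ) - ((N + 1 : ℕ) : ℤ)) (by push_cast at hp ⊢; omega),
      Subgroup.coe_one, Equiv.Perm.one_apply]
    ring
  have h4 : ((cc (t ^ (N + 1)) (t'⁻¹ ^ (N + 1)) - cc 1 (t ^ (N + 1)) -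
      cc 1 (t'⁻¹ ^ (N + 1)) : ℤ) : ℝ) ≤ ((0 : ℤ) : ℝ) := by
    exact_mod_cast (by omega : cc (t ^ (N + 1)) (t'⁻¹ ^ (N + 1)) - cc 1 (t ^ (N + 1)) -
      cc 1 (t'⁻¹ ^ (N + 1)) ≤ 0)
  rw [Int.cast_zero] at h4
  linarith

/-- The structure of `XX` is quasi-parabolic. -/
theorem QP_X : QPS XX := by
  refine ⟨closure_XX, ⟨3 / 2, hyp_X⟩, ⟨t, t', lox_X_of (by rw [kk_t]; omega),
    lox_X_of (by rw [kk_t']; omega), ?_⟩, ?_⟩
  · rintro (⟨h, -⟩ | ⟨h, -⟩)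
    · exact not_se_1 h
    · exact not_se_2 h
  · intro g h hg hh
    have h1 := kk_of_lox closure_XX hg
    have h2 := kk_of_lox closure_XX hh
    rcases lt_or_gt_of_ne h1 with h1 | h1 <;> rcases lt_or_gt_of_ne h2 with h2 | h2
    · exact Or.inl (se_X h1 h2)
    · exact Or.inr (Or.inl (se_X h1 (by rw [kk_inv]; omega)))
    · exact Or.inr (Or.inr (Or.inl (se_X (by rw [kk_inv]; omega) h2)))
    · exact Or.inr (Or.inr (Or.inr (se_X (by rw [kk_inv]; omega) (by rw [kk_inv]; omega))))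

end Pool.Agent.K4H27.QP
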