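import Mathlib
import Pool.Agent.K4H27.QP.Main

/-!
# Uniqueness of the quasi-parabolic structure of `Gr`
-/

set_option autoImplicit false

open Pointwise

namespace Pool.Agent.K4H27.QP

theorem bounded_Fix {S : Set Gr} (hS : Subgroup.closure S = ⊤) (z : ℤ) :
    ∃ C : ℕ, ∀ g : Gr, Fix z g → lenS S g ≤ C := by
  obtain ⟨C, hC⟩ := bounded_A (isLen hS)
  obtain ⟨j, hj⟩ : ∃ j : ℕ, -(j : ℤ) ≤ z := ⟨z.natAbs, by omega⟩
  have hl := isLen hS
  refine ⟨C + 2 * lenS S (t ^ j), fun g hg => ?_⟩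
  have h1 : Fix 0 (t ^ j * g * (t ^ j)⁻¹ : Gr) := (hg.conj j).mono (by omega)
  have h2 := hC _ h1
  have h3 := hl.conj (t ^ j)⁻¹ (t ^ j * g * (t ^ j)⁻¹)
  rw [hl.inv, inv_inv] at h3
  have e : (t ^ j)⁻¹ * (t ^ j * g * (t ^ j)⁻¹) * t ^ j = g := by group
  rw [e] at h3
  omega

theorem pow_fix (g : Gr) (k : ℕ) (hk : kk g = k) :
    ∃ z : ℤ, ∀ n : ℕ, Fix z (g ^ n * (t ^ (k * n))⁻¹ : Gr) := by
  obtain ⟨N, hN⟩ := kk_spec g
  rw [hk] at hN
  refine ⟨N + k, fun n => ?_⟩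
  have h1 : ∀ n : ℕ, ∀ x : ℤ, x + n * k < N + k → ((g ^ n : Gr) : Equiv.Perm ℤ) x = x + n * k := by
    intro n
    induction n with
    | zero => intro x _; simp
    | succ n ih =>
      intro x hx
      have e : ((n + 1 : ℕ) : ℤ) = n + 1 := by push_cast; ring
      rw [e] at hx ⊢
      rw [pow_succ', Subgroup.coe_mul, Equiv.Perm.mul_apply]
      have h2 := ih x (by nlinarith)
      rw [h2, hN _ (by nlinarith)]
      ring
  intro p hp
  rw [Subgroup.coe_mul, Equiv.Perm.mul_apply, t_pow_inv_apply, h1 n _ (by push_cast; nlinarith)]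
  push_cast
  ring

/-- `t` is loxodromic if there is a loxodromic element -/
theorem lox_t {Y : Set Gr} (hcl : Subgroup.closure Y = ⊤) {g : Gr} (hg : loxS Y g) :
    ∃ c : ℝ, 0 < c ∧ ∀ n : ℕ, c * n ≤ (lenS Y (t ^ n) : ℝ) := by
  have hl := isLen hcl
  obtain ⟨g, k, hk, hk0, c, hc, hcn⟩ : ∃ (g : Gr) (k : ℕ), kk g = k ∧ 0 < k ∧ loxS Y g := by
    have h1 := kk_of_lox hcl hg
    rcases lt_or_gt_of_ne h1 with h2 | h2
    · refine ⟨g⁻¹, (-kk g).toNat, by rw [kk_inv]; omega, by omega, ?_⟩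
      obtain ⟨c, hc, hcn⟩ := hg
      refine ⟨c, hc, fun n => ?_⟩
      rw [inv_pow, hl.inv]
      exact hcn n
    · exact ⟨g, (kk g).toNat, by omega, by omega, hg⟩
  obtain ⟨z, hz⟩ := pow_fix g k hk
  obtain ⟨B, hB⟩ := bounded_Fix hcl z
  have h1 : ∀ n : ℕ, c * n ≤ B + (lenS Y (t ^ (k * n)) : ℝ) := by
    intro n
    have h2 := hcn n
    have h3 := hB _ (hz n)
    have h4 := hl.mul (g ^ n * (t ^ (k * n))⁻¹) (t ^ (k * n))
    rw [inv_mul_cancel_right] at h4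
    have h5 : lenS Y (g ^ n) ≤ B + lenS Y (t ^ (k * n)) := by omega
    have h6 : (lenS Y (g ^ n) : ℝ) ≤ B + (lenS Y (t ^ (k * n)) : ℝ) := by exact_mod_cast h5
    linarith
  have hk' : (0 : ℝ) < k := by exact_mod_cast hk0
  refine ⟨c / k, by positivity, fun m => ?_⟩
  rw [div_mul_eq_mul_div, div_le_iff₀ hk']
  by_contra hcon
  push Not at hcon
  set a : ℝ := (lenS Y (t ^ m) : ℝ) with ha
  obtain ⟨j, hj⟩ := exists_nat_gt ((B : ℝ) / (c * m - a * k))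
  have hpos : 0 < c * m - a * k := by linarith
  rw [div_lt_iff₀ hpos] at hj
  have h2 := h1 (m * j)
  have h3 : (lenS Y (t ^ (k * (m * j))) : ℝ) ≤ (k * j : ℕ) * a := by
    have h4 := hl.pow (t ^ m) (k * j)
    rw [lenS_one, zero_add, ← pow_mul] at h4
    have e : m * (k * j) = k * (m * j) := by ring
    rw [e] at h4
    rw [ha]
    exact_mod_cast h4
  push_cast at h2 h3
  nlinarith

section

variable {Y : Set Gr} {δ : ℝ}

/-- bounded `Hs`: elements with translation lengths of the same sign have the same end -/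
theorem se_of_bdd (hcl : Subgroup.closure Y = ⊤) (hL : HypLen (fun g : Gr => (lenS Y g : ℝ)) δ)
    {c : ℝ} (hc : 0 < c) (ht : ∀ n : ℕ, c * n ≤ (lenS Y (t ^ n) : ℝ)) {K : ℝ}
    (hK : ∀ n m : ℕ, (lenS Y (t ^ n) : ℝ) + (lenS Y (t ^ m) : ℝ) ≤ (lenS Y (t ^ (n + m)) : ℝ) + K)
    {C : ℝ} (hC : ∀ g ∈ Hs, (lenS Y g : ℝ) ≤ C) {g h : Gr}
    (hs : (0 < kk g ∧ 0 < kk h) ∨ (kk g < 0 ∧ kk h < 0)) : seS Y g h := by
  have hl := isLen hcl
  have hz : ∀ z : ℤ, lenS Y (t ^ z) = lenS Y (t ^ z.natAbs) := by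
    intro z
    rcases Int.natAbs_eq z with h1 | h1
    · conv_lhs => rw [h1]
      rw [zpow_natCast]
    · conv_lhs => rw [h1]
      rw [zpow_neg, zpow_natCast, hl.inv]
  have hkz : ∀ z : ℤ, kk (t ^ z) = z := by
    intro z
    rcases Int.natAbs_eq z with h1 | h1
    · rw [h1, zpow_natCast, kk_pow, kk_t, mul_one]
    · rw [h1, zpow_neg, zpow_natCast, kk_inv, kk_pow, kk_t, mul_one]
  -- comparison with the powers of `t`
  have hu : ∀ x : Gr, (lenS Y ((t ^ (kk x))⁻¹ * x) : ℝ) ≤ C := by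
    intro x
    apply hC
    rw [mem_Hs_iff, kk_mul, kk_inv, hkz]
    ring
  intro B
  obtain ⟨N, hN⟩ := exists_nat_ge ((B + K / 2 + 2 * C) / c)
  rw [div_le_iff₀ hc] at hN
  refine ⟨N, fun n m hn hm => ?_⟩
  set x := g ^ n with hx
  set y := h ^ m with hy
  have kx : kk x = n * kk g := kk_pow g n
  have ky : kk y = m * kk h := kk_pow h m
  have b1 : (lenS Y (t ^ (kk x).natAbs) : ℝ) ≤ lenS Y x + C := by
    have h1 := hL.mul x ((t ^ (kk x))⁻¹ * x)⁻¹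
    have e : x * ((t ^ (kk x))⁻¹ * x)⁻¹ = t ^ (kk x) := by group
    rw [e, hL.inv] at h1
    rw [hz] at h1
    have := hu x
    linarith
  have b2 : (lenS Y (t ^ (kk y).natAbs) : ℝ) ≤ lenS Y y + C := by
    have h1 := hL.mul y ((t ^ (kk y))⁻¹ * y)⁻¹
    have e : y * ((t ^ (kk y))⁻¹ * y)⁻¹ = t ^ (kk y) := by group
    rw [e, hL.inv] at h1
    rw [hz] at h1
    have := hu y
    linarith
  have b3 : (lenS Y (x⁻¹ * y) : ℝ) ≤ lenS Y (t ^ (kk y - kk x).natAbs) + 2 * C := by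
    have h1 := hL.mul ((t ^ (kk x))⁻¹ * x)⁻¹ (t ^ (kk y - kk x) * ((t ^ (kk y))⁻¹ * y))
    have h2 := hL.mul (t ^ (kk y - kk x)) ((t ^ (kk y))⁻¹ * y)
    have e : ((t ^ (kk x))⁻¹ * x)⁻¹ * (t ^ (kk y - kk x) * ((t ^ (kk y))⁻¹ * y)) = x⁻¹ * y := by
      rw [zpow_sub]; group
    rw [e, hL.inv] at h1
    rw [hz] at h2
    have := hu x
    have := hu y
    linarith
  -- the numbers
  set p := (kk x).natAbs with hp
  set q := (kk y).natAbs with hq
  have hpn : N ≤ p := by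
    rw [hp, kx, Int.natAbs_mul, Int.natAbs_natCast]
    have : 1 ≤ (kk g).natAbs := by omega
    nlinarith
  have hqm : N ≤ q := by
    rw [hq, ky, Int.natAbs_mul, Int.natAbs_natCast]
    have : 1 ≤ (kk h).natAbs := by omega
    nlinarith
  have hsign : (0 ≤ kk x ∧ 0 ≤ kk y) ∨ (kk x ≤ 0 ∧ kk y ≤ 0) := by
    rw [kx, ky]
    rcases hs with ⟨h1, h2⟩ | ⟨h1, h2⟩
    · left; constructor <;> positivity
    · right
      constructor
      · have : (0 : ℤ) ≤ n := by positivity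
        nlinarith
      · have : (0 : ℤ) ≤ m := by positivity
        nlinarith
  have htN := ht N
  have haN : ∀ p : ℕ, N ≤ p → c * N ≤ lenS Y (t ^ p) := by
    intro p hp
    have h1 := ht p
    have h2 : (N : ℝ) ≤ p := by exact_mod_cast hp
    nlinarith
  unfold gpS
  rcases le_total p q with hpq | hpq
  · obtain ⟨r, hr⟩ : ∃ r, q = p + r := ⟨q - p, by omega⟩
    have e : (kk y - kk x).natAbs = r := by omega
    rw [e] at b3
    have h1 := hK p r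
    rw [← hr] at h1
    have h2 := haN p hpn
    linarith
  · obtain ⟨r, hr⟩ : ∃ r, p = q + r := ⟨p - q, by omega⟩
    have e : (kk y - kk x).natAbs = r := by omega
    rw [e] at b3
    have h1 := hK q r
    rw [← hr] at h1
    have h2 := haN q hqm
    linarith

/-- **Uniqueness.** -/
theorem uniq (hY : QPS Y) :
    (∃ C : ℕ, ∀ y ∈ Y, lenS XX y ≤ C) ∧ (∃ C : ℕ, ∀ x ∈ XX, lenS Y x ≤ C) := by
  obtain ⟨hcl, ⟨δ, hδ⟩, ⟨g0, h0, hg0, hh0, hne⟩, -⟩ := hY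
  have hl := isLen hcl
  have hL := hypLen hcl hδ
  obtain ⟨CA, hCA⟩ := bounded_A hl
  refine ⟨?_, ⟨CA + lenS Y t, ?_⟩⟩
  swap
  · rintro x (hx | hx)
    · have := hCA x hx
      omega
    · rw [Set.mem_singleton_iff] at hx
      rw [hx]
      omega
  obtain ⟨c, hc, ht⟩ := lox_t hcl hg0
  obtain ⟨K, hK0, hK⟩ := hL.exists_K t hc ht
  have hδ0 := hL.delta_nonneg
  have hB : ∀ g ∈ Hs, ∃ C : ℝ, ∀ i m : ℕ, (lenS Y (t ^ m * g ^ i * (t ^ m)⁻¹) : ℝ) ≤ C := by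
    rintro g ⟨z, hz⟩
    obtain ⟨B, hB⟩ := bounded_Fix hcl z
    refine ⟨B, fun i m => ?_⟩
    have h1 : Fix z ((g ^ i : Gr) : Equiv.Perm ℤ) := by
      rw [Subgroup.coe_pow]
      exact hz.pow i
    exact_mod_cast hB _ ((h1.conj m).mono (by omega))
  have key : ∀ R : ℝ, ∃ n₀ : ℕ, ∀ n, n₀ ≤ n → ∀ g ∈ Hs, (lenS Y g : ℝ) ≤ R →
      (lenS Y (t ^ n * g * (t ^ n)⁻¹) : ℝ) ≤ K + 6 * δ := by
    intro R
    obtain ⟨n₀, hn₀⟩ := exists_nat_ge ((K + R + 2 * δ) / (2 * c))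
    rw [div_le_iff₀ (by positivity)] at hn₀
    refine ⟨n₀, fun n hn g hg hgR => ?_⟩
    apply hL.claimC t hc ht hK Hs (fun g hg => by simpa using Hs_conj g hg 1) hB R n _ g hg hgR
    have h1 := ht n
    have h2 : (n₀ : ℝ) ≤ n := by exact_mod_cast hn
    nlinarith
  by_cases hub : ∀ z : ℤ, ∃ q ∈ Hs, (lenS Y q : ℝ) ≤ K + 6 * δ ∧ ∃ x < z, (q : Equiv.Perm ℤ) x ≠ x
  · exfalso
    have hbd := dich hL CA (fun g hg => by exact_mod_cast hCA g hg) _ key hub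
    apply hne
    have k1 := kk_of_lox hcl hg0
    have k2 := kk_of_lox hcl hh0
    have se : ∀ {g h : Gr}, (0 < kk g ∧ 0 < kk h) ∨ (kk g < 0 ∧ kk h < 0) → seS Y g h :=
      fun hs => se_of_bdd hcl hL hc ht hK hbd hs
    rcases lt_or_gt_of_ne k1 with k1 | k1 <;> rcases lt_or_gt_of_ne k2 with k2 | k2
    · exact Or.inl ⟨se (Or.inr ⟨k1, k2⟩), se (Or.inl ⟨by rw [kk_inv]; omega, by rw [kk_inv]; omega⟩)⟩
    · exact Or.inr ⟨se (Or.inr ⟨k1, by rw [kk_inv]; omega⟩), se (Or.inl ⟨by rw [kk_inv]; omega, k2⟩)⟩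
    · exact Or.inr ⟨se (Or.inl ⟨k1, by rw [kk_inv]; omega⟩), se (Or.inr ⟨by rw [kk_inv]; omega, k2⟩)⟩
    · exact Or.inl ⟨se (Or.inl ⟨k1, k2⟩), se (Or.inr ⟨by rw [kk_inv]; omega, by rw [kk_inv]; omega⟩)⟩
  · push Not at hub
    obtain ⟨z, hz⟩ := hub
    -- bound for `kk y`
    have hkk : ∀ y : Gr, 0 ≤ kk y → (lenS Y y : ℝ) ≤ 1 → c * kk y ≤ 1 + K + 2 * δ := by
      intro y hy hy1
      obtain ⟨k, hk⟩ : ∃ k : ℕ, kk y = k := ⟨(kk y).toNat, by omega⟩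
      have hmem : (t ^ k)⁻¹ * y ∈ Hs := by
        rw [mem_Hs_iff, kk_mul, kk_inv, kk_pow, kk_t, hk]
        ring
      obtain ⟨C, hC⟩ := hB _ hmem
      obtain ⟨m, hm⟩ := hL.claimB t hc ht _ C hC
      have h1 := hm (m + k) (by omega)
      have e : ((t ^ k)⁻¹ * y)⁻¹ * (t ^ (m + k))⁻¹ = y⁻¹ * (t ^ m)⁻¹ := by
        rw [pow_add]; group
      rw [e, abs_le] at h1
      have h2 := hL.mul y⁻¹ (t ^ m)⁻¹
      rw [hL.inv, hL.inv] at h2
      have h3 := hK m k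
      have h4 := ht k
      rw [hk]
      push_cast
      linarith [h1.1]
    obtain ⟨Kb, hKb⟩ := exists_nat_ge ((1 + K + 2 * δ) / c)
    rw [div_le_iff₀ hc] at hKb
    have hkk2 : ∀ y ∈ Y, |kk y| ≤ Kb := by
      intro y hy
      have h1 : (lenS Y y : ℝ) ≤ 1 := by exact_mod_cast lenS_mem hy
      rw [abs_le]
      constructor
      · by_contra hcon
        push Not at hcon
        have h2 := hkk y⁻¹ (by rw [kk_inv]; omega) (by rw [hl.inv]; exact h1)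
        rw [kk_inv] at h2
        have h3 : (Kb : ℝ) < ((-kk y : ℤ) : ℝ) := by
          have : (Kb : ℤ) < -kk y := by omega
          exact_mod_cast this
        nlinarith
      · by_contra hcon
        push Not at hcon
        have h2 := hkk y (by omega) h1
        have h3 : (Kb : ℝ) < ((kk y : ℤ) : ℝ) := by exact_mod_cast hcon
        nlinarith
    obtain ⟨n₁, hn₁⟩ := key ((1 + Kb * lenS Y t : ℕ) : ℝ)
    obtain ⟨BX, hBX⟩ := bounded_Fix closure_XX z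
    have hlX := isLen closure_XX
    refine ⟨BX + 2 * lenS XX (t ^ n₁) + Kb * lenS XX t, fun y hy => ?_⟩
    -- `h = y t⁻ᵏ`
    have hzk : ∀ S : Set Gr, Subgroup.closure S = ⊤ → lenS S (t ^ (kk y)) ≤ Kb * lenS S t := by
      intro S hS
      have hlS := isLen hS
      have h1 := abs_le.1 (hkk2 y hy)
      have h2 : (kk y).natAbs ≤ Kb := by omega
      have h3 := hlS.pow t (kk y).natAbs
      rw [lenS_one, zero_add] at h3
      have h4 : lenS S (t ^ (kk y)) = lenS S (t ^ (kk y).natAbs) := by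
        rcases Int.natAbs_eq (kk y) with h5 | h5
        · conv_lhs => rw [h5]
          rw [zpow_natCast]
        · conv_lhs => rw [h5]
          rw [zpow_neg, zpow_natCast, hlS.inv]
      rw [h4]
      exact h3.trans (Nat.mul_le_mul_right _ h2)
    have hkz : kk (t ^ (kk y)) = kk y := by
      rcases Int.natAbs_eq (kk y) with h1 | h1
      · conv_lhs => rw [h1]
        rw [zpow_natCast, kk_pow, kk_t, mul_one]
        exact h1.symm
      · conv_lhs => rw [h1]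
        rw [zpow_neg, zpow_natCast, kk_inv, kk_pow, kk_t, mul_one]
        exact h1.symm
    have hmem : y * (t ^ (kk y))⁻¹ ∈ Hs := by
      rw [mem_Hs_iff, kk_mul, kk_inv, hkz]
      ring
    have h1 : lenS Y (y * (t ^ (kk y))⁻¹) ≤ 1 + Kb * lenS Y t := by
      have h2 := hl.mul y (t ^ (kk y))⁻¹
      have h3 := lenS_mem hy
      have h4 := hzk Y hcl
      rw [hl.inv] at h2
      omega
    have h2 := hn₁ n₁ le_rfl _ hmem (by exact_mod_cast h1)
    have h3 : Fix z (t ^ n₁ * (y * (t ^ (kk y))⁻¹) * (t ^ n₁)⁻¹ : Gr) := by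
      intro x hx
      exact hz _ (Hs_conj _ hmem n₁) h2 x hx
    have h4 := hBX _ h3
    have h5 := hlX.conj (t ^ n₁)⁻¹ (t ^ n₁ * (y * (t ^ (kk y))⁻¹) * (t ^ n₁)⁻¹)
    have e : (t ^ n₁)⁻¹ * (t ^ n₁ * (y * (t ^ (kk y))⁻¹) * (t ^ n₁)⁻¹) * (t ^ n₁)⁻¹⁻¹ =
        y * (t ^ (kk y))⁻¹ := by group
    rw [e, hlX.inv] at h5
    have h6 := hlX.mul (y * (t ^ (kk y))⁻¹) (t ^ (kk y))
    rw [inv_mul_cancel_right] at h6
    have h7 := hzk XX closure_XX
    omega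

end

end Pool.Agent.K4H27.QP
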